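import Mathlib

namespace Pool.Agent.Lib.MP_b2463a_co

open Finset

abbrev V := ℝ × ℝ × ℝ

abbrev J := (V × Bool) ⊕ Bool

def disc (t : V) (u : ℝ) : ℝ := (1 + t.2.1 ^ 2) * (1 - u ^ 2) - (t.1 * u + t.2.2) ^ 2

noncomputable def hh (t : V) (σ : Bool) (u : ℝ) : ℝ :=
  (-t.2.1 * (t.1 * u + t.2.2) + (if σ then 1 else -1) * √(disc t u)) / (1 + t.2.1 ^ 2)

def dd : J → ℝ → ℝ
  | .inl a => disc a.1
  | .inr _ => fun _ => 1

noncomputable def hj : J → ℝ → ℝ
  | .inl a => hh a.1 a.2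
  | .inr true => fun _ => 2
  | .inr false => fun _ => -2

noncomputable def fa (γ : J) (u : ℝ) : ℝ := if 0 ≤ dd γ u then hj γ u else 2

def Ell (t : V) (u y : ℝ) : Prop := u ^ 2 + y ^ 2 + (t.1 * u + t.2.1 * y + t.2.2) ^ 2 = 1

theorem ell_iff (t : V) (u y : ℝ) :
    Ell t u y ↔ ((1 + t.2.1 ^ 2) * y + t.2.1 * (t.1 * u + t.2.2)) ^ 2 = disc t u := by
  have h : 0 < 1 + t.2.1 ^ 2 := by positivity
  have e : ((1 + t.2.1 ^ 2) * y + t.2.1 * (t.1 * u + t.2.2)) ^ 2 - disc t u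
      = (1 + t.2.1 ^ 2) * (u ^ 2 + y ^ 2 + (t.1 * u + t.2.1 * y + t.2.2) ^ 2 - 1) := by
    unfold disc
    ring
  rw [← sub_eq_zero (b := disc t u), e, mul_eq_zero, sub_eq_zero, Ell]
  simp [h.ne']

theorem ell_hh (t : V) (σ : Bool) (u : ℝ) (h : 0 ≤ disc t u) : Ell t u (hh t σ u) := by
  have h0 : 0 < 1 + t.2.1 ^ 2 := by positivity
  rw [ell_iff, hh, mul_div_cancel₀ _ h0.ne']
  have := Real.sq_sqrt h
  cases σ
  · simp only [Bool.false_eq_true, if_false]
    linear_combination this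
  · simp only [if_true]
    linear_combination this

theorem exists_arc {t : V} {u y : ℝ} (h : Ell t u y) : ∃ σ, fa (.inl (t, σ)) u = y := by
  have h0 : 0 < 1 + t.2.1 ^ 2 := by positivity
  rw [ell_iff] at h
  have h1 : 0 ≤ disc t u := h ▸ sq_nonneg _
  have h2 : √(disc t u) = |(1 + t.2.1 ^ 2) * y + t.2.1 * (t.1 * u + t.2.2)| := by
    rw [← h, Real.sqrt_sq_eq_abs]
  rcases abs_choice ((1 + t.2.1 ^ 2) * y + t.2.1 * (t.1 * u + t.2.2)) with g | g
  · refine ⟨true, ?_⟩
    simp only [fa, dd, hj, hh, if_pos h1, if_true]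
    rw [h2, g]
    field_simp
    ring
  · refine ⟨false, ?_⟩
    simp only [fa, dd, hj, hh, if_pos h1, Bool.false_eq_true, if_false]
    rw [h2, g]
    field_simp
    ring

theorem Ell.abs_le {t : V} {u y : ℝ} (h : Ell t u y) : -1 ≤ y ∧ y ≤ 1 := by
  unfold Ell at h
  constructor <;> nlinarith [sq_nonneg u, sq_nonneg (t.1 * u + t.2.1 * y + t.2.2)]

theorem ell_of_fa {t : V} {σ : Bool} {u y : ℝ} (hy : y < 2) (h : fa (.inl (t, σ)) u = y) :
    Ell t u y := by
  simp only [fa, dd, hj] at h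
  split_ifs at h with g
  · rw [← h]; exact ell_hh t σ u g
  · linarith

theorem quad_roots (a b c : ℝ) (ha : a ≠ 0) :
    ∃ Z : Finset ℝ, Z.card ≤ 2 ∧ ∀ u, a * u ^ 2 + b * u + c = 0 → u ∈ Z := by
  refine ⟨{(-b + √(b ^ 2 - 4 * a * c)) / (2 * a), (-b - √(b ^ 2 - 4 * a * c)) / (2 * a)},
    card_le_two, fun u hu => ?_⟩
  have h : (2 * a * u + b) ^ 2 = b ^ 2 - 4 * a * c := by linear_combination 4 * a * hu
  have h2 : √(b ^ 2 - 4 * a * c) = |2 * a * u + b| := by rw [← h, Real.sqrt_sq_eq_abs]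
  simp only [mem_insert, mem_singleton]
  rcases abs_choice (2 * a * u + b) with g | g
  · left
    rw [h2, g]
    field_simp
    ring
  · right
    rw [h2, g]
    field_simp
    ring

theorem line_roots (t s : V) (hs : s ≠ 0) :
    ∃ Z : Finset ℝ, Z.card ≤ 2 ∧ ∀ u y, Ell t u y → s.1 * u + s.2.1 * y + s.2.2 = 0 → u ∈ Z := by
  obtain ⟨a, b, c⟩ := s
  by_cases hb : b = 0
  · by_cases ha : a = 0
    · refine ⟨∅, by simp, fun u y _ h => ?_⟩
      exfalso
      apply hs
      simp only [ha, hb, zero_mul, zero_add] at h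
      simp [ha, hb, h]
    · refine ⟨{-c / a}, by simp, fun u y _ h => ?_⟩
      simp only [hb, zero_mul, add_zero] at h
      rw [mem_singleton]
      field_simp
      linarith
  · obtain ⟨Z, hZ, h⟩ := quad_roots (1 + (a / b) ^ 2 + (t.1 - t.2.1 * (a / b)) ^ 2)
      (2 * (a / b) * (c / b) + 2 * (t.1 - t.2.1 * (a / b)) * (t.2.2 - t.2.1 * (c / b)))
      ((c / b) ^ 2 + (t.2.2 - t.2.1 * (c / b)) ^ 2 - 1) (by positivity)
    refine ⟨Z, hZ, fun u y he hl => h u ?_⟩
    have hy : y = -(a / b) * u - c / b := by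
      simp only at hl
      field_simp
      linarith
    unfold Ell at he
    rw [hy] at he
    linear_combination he

theorem ell_inter (t t' : V) (h1 : t ≠ t') (h2 : t ≠ -t') :
    ∃ Z : Finset ℝ, Z.card ≤ 4 ∧ ∀ u y, Ell t u y → Ell t' u y → u ∈ Z := by
  obtain ⟨Z1, c1, a1⟩ := line_roots t (t - t') (sub_ne_zero.mpr h1)
  obtain ⟨Z2, c2, a2⟩ := line_roots t (t + t') (fun h => h2 (eq_neg_of_add_eq_zero_left h))
  refine ⟨Z1 ∪ Z2, (card_union_le _ _).trans (by omega), fun u y e e' => ?_⟩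
  have : ((t - t').1 * u + (t - t').2.1 * y + (t - t').2.2) *
      ((t + t').1 * u + (t + t').2.1 * y + (t + t').2.2) = 0 := by
    unfold Ell at e e'
    simp only [Prod.fst_sub, Prod.snd_sub, Prod.fst_add, Prod.snd_add]
    linear_combination e - e'
  rcases mul_eq_zero.mp this with g | g
  · exact mem_union_left _ (a1 u y e g)
  · exact mem_union_right _ (a2 u y e g)

theorem sign_const (g : ℝ → ℝ) (hg : Continuous g) (u v : ℝ) (h : ∀ z ∈ Set.Icc u v, g z ≠ 0) :
    (∀ z ∈ Set.Icc u v, 0 < g z) ∨ ∀ z ∈ Set.Icc u v, g z < 0 := by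
  by_contra hcon
  push Not at hcon
  obtain ⟨⟨z1, h1, g1⟩, z2, h2, g2⟩ := hcon
  obtain ⟨z, hz, e⟩ := isPreconnected_Icc.intermediate_value h1 h2 hg.continuousOn ⟨g1, g2⟩
  exact h z hz e

theorem cont_dd (γ : J) : Continuous (dd γ) := by
  rcases γ with a | a
  · show Continuous (disc a.1)
    unfold disc
    fun_prop
  · exact continuous_const

theorem cont_hj (γ : J) : Continuous (hj γ) := by
  rcases γ with a | a
  · show Continuous (hh a.1 a.2)
    unfold hh disc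
    fun_prop
  · cases a <;> exact continuous_const

theorem dd_roots (γ : J) : ∃ Z : Finset ℝ, Z.card ≤ 2 ∧ ∀ u, dd γ u = 0 → u ∈ Z := by
  rcases γ with ⟨t, σ⟩ | a
  · obtain ⟨Z, hZ, h⟩ := quad_roots (1 + t.2.1 ^ 2 + t.1 ^ 2) (2 * t.1 * t.2.2)
      (t.2.2 ^ 2 - (1 + t.2.1 ^ 2)) (by positivity)
    refine ⟨Z, hZ, fun u hu => h u ?_⟩
    simp only [dd, disc] at hu
    linear_combination -hu
  · exact ⟨∅, by simp, fun u hu => by simp [dd] at hu⟩

theorem hj_top (γ : J) : (∀ z, 0 ≤ dd γ z → hj γ z < 2) ∨ ∀ z, hj γ z = 2 := by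
  rcases γ with ⟨t, σ⟩ | a
  · left
    intro z hz
    have := (ell_hh t σ z hz).abs_le.2
    show hh t σ z < 2
    linarith
  · cases a
    · left; intro z _; simp only [hj]; norm_num
    · right; intro z; rfl

theorem hj_zeros (α β : J) : ∃ Z : Finset ℝ, Z.card ≤ 4 ∧ ((∀ u, hj α u = hj β u) ∨
    ∀ u, 0 < dd α u → 0 < dd β u → hj α u = hj β u → u ∈ Z) := by
  rcases α with ⟨t, σ⟩ | a <;> rcases β with ⟨t', σ'⟩ | b
  · by_cases h : t = t' ∨ t = -t'
    · have e1 : ∀ u, disc t u = disc t' u := by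
        intro u
        rcases h with rfl | rfl
        · rfl
        · simp only [disc, Prod.fst_neg, Prod.snd_neg]; ring
      have e2 : ∀ σ u, hh t σ u = hh t' σ u := by
        intro σ u
        rcases h with rfl | rfl
        · rfl
        · simp only [hh, e1, Prod.fst_neg, Prod.snd_neg]; ring
      refine ⟨∅, by simp, ?_⟩
      by_cases hσ : σ = σ'
      · left
        intro u
        simp only [hj, hσ, e2]
      · right
        intro u _ h2 h3
        exfalso
        simp only [hj, e2, dd] at h2 h3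
        simp only [hh] at h3
        have h0 : 0 < 1 + t'.2.1 ^ 2 := by positivity
        have h4 := Real.sqrt_pos.mpr h2
        rw [div_left_inj' h0.ne'] at h3
        cases σ <;> cases σ' <;> simp at h3 hσ <;> linarith
    · push Not at h
      obtain ⟨Z, hZ, hz⟩ := ell_inter t t' h.1 h.2
      refine ⟨Z, hZ, Or.inr fun u h1 h2 h3 => hz u (hh t σ u) (ell_hh t σ u h1.le) ?_⟩
      have := ell_hh t' σ' u h2.le
      simp only [hj] at h3
      rwa [h3]
  · refine ⟨∅, by simp, Or.inr fun u h1 _ h3 => ?_⟩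
    have := (ell_hh t σ u h1.le).abs_le
    cases b <;> simp only [hj] at h3 <;> linarith [this.1, this.2]
  · refine ⟨∅, by simp, Or.inr fun u _ h1 h3 => ?_⟩
    have := (ell_hh t' σ' u h1.le).abs_le
    cases a <;> simp only [hj] at h3 <;> linarith [this.1, this.2]
  · refine ⟨∅, by simp, ?_⟩
    cases a <;> cases b
    · exact Or.inl fun _ => rfl
    · exact Or.inr fun u _ _ h => by simp only [hj] at h; linarith
    · exact Or.inr fun u _ _ h => by simp only [hj] at h; linarith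
    · exact Or.inl fun _ => rfl

theorem exists_chg (α β : J) : ∃ B : Finset ℝ, B.card ≤ 8 ∧ ∀ u v, u ≤ v →
    (∀ b ∈ B, b < u ∨ v < b) → (fa α u < fa β u ↔ fa α v < fa β v) := by
  obtain ⟨Z1, c1, a1⟩ := dd_roots α
  obtain ⟨Z2, c2, a2⟩ := dd_roots β
  obtain ⟨Z3, c3, a3⟩ := hj_zeros α β
  refine ⟨Z1 ∪ Z2 ∪ Z3, ?_, fun u v huv hb => ?_⟩
  · have := card_union_le (Z1 ∪ Z2) Z3
    have := card_union_le Z1 Z2
    omega
  have hno : ∀ z ∈ Set.Icc u v, z ∉ Z1 ∪ Z2 ∪ Z3 := by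
    intro z hz h
    rcases hb z h with g | g
    · exact absurd hz.1 (not_le.mpr g)
    · exact absurd hz.2 (not_le.mpr g)
  have hu : u ∈ Set.Icc u v := ⟨le_rfl, huv⟩
  have hv : v ∈ Set.Icc u v := ⟨huv, le_rfl⟩
  have hle : ∀ γ z, 0 ≤ dd γ z → hj γ z ≤ 2 := fun γ z hz =>
    (hj_top γ).elim (fun h => (h z hz).le) fun h => (h z).le
  rcases sign_const _ (cont_dd α) u v (fun z hz h => hno z hz
    (mem_union_left _ (mem_union_left _ (a1 z h)))) with p1 | p1 <;>
  rcases sign_const _ (cont_dd β) u v (fun z hz h => hno z hz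
    (mem_union_left _ (mem_union_right _ (a2 z h)))) with p2 | p2
  · simp only [fa, if_pos (p1 u hu).le, if_pos (p1 v hv).le, if_pos (p2 u hu).le,
      if_pos (p2 v hv).le]
    rcases a3 with a3 | a3
    · simp [a3]
    · rcases sign_const (fun z => hj β z - hj α z) ((cont_hj β).sub (cont_hj α)) u v
        (fun z hz h => hno z hz (mem_union_right _
          (a3 z (p1 z hz) (p2 z hz) (sub_eq_zero.mp h).symm))) with p3 | p3
      · exact iff_of_true (sub_pos.mp (p3 u hu)) (sub_pos.mp (p3 v hv))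
      · exact iff_of_false (not_lt.mpr (sub_neg.mp (p3 u hu)).le)
          (not_lt.mpr (sub_neg.mp (p3 v hv)).le)
  · simp only [fa, if_pos (p1 u hu).le, if_pos (p1 v hv).le, if_neg (not_le.mpr (p2 u hu)),
      if_neg (not_le.mpr (p2 v hv))]
    rcases hj_top α with h | h
    · exact iff_of_true (h u (p1 u hu).le) (h v (p1 v hv).le)
    · simp [h]
  · simp only [fa, if_pos (p2 u hu).le, if_pos (p2 v hv).le, if_neg (not_le.mpr (p1 u hu)),
      if_neg (not_le.mpr (p1 v hv))]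
    exact iff_of_false (not_lt.mpr (hle β u (p2 u hu).le)) (not_lt.mpr (hle β v (p2 v hv).le))
  · simp [fa, if_neg (not_le.mpr (p2 u hu)), if_neg (not_le.mpr (p2 v hv)),
      if_neg (not_le.mpr (p1 u hu)), if_neg (not_le.mpr (p1 v hv))]

end Pool.Agent.Lib.MP_b2463a_co
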