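import Mathlib

namespace Pool.Agent.Lib.MP_b2463a_co

open Finset

section Hit

variable {J T : Type*} [DecidableEq J]

open Classical in
theorem hit_aux (A : Finset J) (w : J → ℝ) (hw : ∀ γ ∈ A, 0 < w γ) (hA : A.Nonempty)
    (rel : J → T → Prop) (r : ℝ) (hr : 1 ≤ r) (H : Finset T)
    (hH : ∀ D ∈ H, ∑ γ ∈ A, w γ ≤ r * ∑ γ ∈ A.filter (fun γ => rel γ D), w γ) (k : ℕ) :
    ∃ R ⊆ A, R.card ≤ k ∧
      ((H.filter fun D => ∀ γ ∈ R, ¬ rel γ D).card : ℝ) ≤ H.card * (1 - 1 / r) ^ k := by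
  induction k with
  | zero => exact ⟨∅, by simp, by simp, by simp⟩
  | succ k ih =>
    obtain ⟨R, hR, hk, hc⟩ := ih
    set H' := H.filter fun D => ∀ γ ∈ R, ¬ rel γ D with hH'
    have hr0 : 0 < r := by linarith
    have key : ∃ γ ∈ A, (H'.card : ℝ) ≤ r * (H'.filter fun D => rel γ D).card := by
      by_contra hcon
      push Not at hcon
      have h1 : ∑ γ ∈ A, w γ * (r * (H'.filter fun D => rel γ D).card) <
          ∑ γ ∈ A, w γ * H'.card :=
        sum_lt_sum_of_nonempty hA fun γ hγ => mul_lt_mul_of_pos_left (hcon γ hγ) (hw γ hγ)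
      have h2 : ∑ γ ∈ A, w γ * (r * (H'.filter fun D => rel γ D).card)
          = ∑ D ∈ H', r * ∑ γ ∈ A.filter (fun γ => rel γ D), w γ := by
        simp only [card_filter, sum_filter, mul_sum, Nat.cast_sum]
        rw [sum_comm]
        refine sum_congr rfl fun D _ => sum_congr rfl fun γ _ => ?_
        split_ifs <;> simp [mul_comm]
      have h3 : ∑ γ ∈ A, w γ * H'.card ≤
          ∑ D ∈ H', r * ∑ γ ∈ A.filter (fun γ => rel γ D), w γ := by
        rw [← sum_mul, mul_comm, ← nsmul_eq_mul, ← sum_const]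
        exact sum_le_sum fun D hD => hH D (mem_filter.mp hD).1
      linarith
    obtain ⟨γ, hγ, hγ'⟩ := key
    refine ⟨insert γ R, insert_subset hγ hR, (card_insert_le _ _).trans (by omega), ?_⟩
    have e : (H.filter fun D => ∀ γ' ∈ insert γ R, ¬ rel γ' D) = H'.filter fun D => ¬ rel γ D := by
      ext D
      simp only [hH', mem_filter, mem_insert, forall_eq_or_imp]
      tauto
    have e2 : ((H'.filter fun D => rel γ D).card : ℝ) + (H'.filter fun D => ¬ rel γ D).card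
        = H'.card := by exact_mod_cast card_filter_add_card_filter_not _
    have h1 : ((H'.filter fun D => ¬ rel γ D).card : ℝ) ≤ H'.card * (1 - 1 / r) := by
      have : (H'.card : ℝ) / r ≤ (H'.filter fun D => rel γ D).card := by
        rw [div_le_iff₀ hr0]; linarith
      rw [mul_sub, mul_one, mul_one_div]
      linarith
    have h0 : 0 ≤ 1 - 1 / r := by
      rw [sub_nonneg, div_le_one hr0]; exact hr
    rw [e, pow_succ, ← mul_assoc]
    exact h1.trans (mul_le_mul_of_nonneg_right hc h0)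

open Classical in
theorem hit (A : Finset J) (w : J → ℝ) (hw : ∀ γ ∈ A, 0 < w γ) (hA : A.Nonempty)
    (rel : J → T → Prop) (r L : ℕ) (hr : 1 ≤ r) (H : Finset T) (hL : H.card < 2 ^ L)
    (hH : ∀ D ∈ H, ∑ γ ∈ A, w γ ≤ r * ∑ γ ∈ A.filter (fun γ => rel γ D), w γ) :
    ∃ R ⊆ A, R.card ≤ r * L ∧ ∀ D ∈ H, ∃ γ ∈ R, rel γ D := by
  have hr' : (1 : ℝ) ≤ r := by exact_mod_cast hr
  obtain ⟨R, hR, hk, hc⟩ := hit_aux A w hw hA rel r hr' H hH (r * L)
  refine ⟨R, hR, hk, ?_⟩
  have h0 : (0 : ℝ) ≤ 1 - 1 / r := by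
    rw [sub_nonneg, div_le_one (by linarith)]; exact hr'
  have h1 : (1 - 1 / (r : ℝ)) ^ r ≤ 1 / 2 := by
    have h2 : (1 - 1 / (r : ℝ)) ≤ Real.exp (-(1 / r)) := by
      have := Real.add_one_le_exp (-(1 / (r : ℝ)))
      linarith
    calc (1 - 1 / (r : ℝ)) ^ r ≤ Real.exp (-(1 / r)) ^ r := pow_le_pow_left₀ h0 h2 r
      _ = Real.exp (-1) := by
        rw [← Real.exp_nat_mul]
        congr 1
        field_simp
      _ ≤ 1 / 2 := by
        rw [Real.exp_neg, one_div]
        apply inv_anti₀ (by norm_num)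
        have := Real.add_one_le_exp (1 : ℝ)
        linarith
  have h3 : (H.card : ℝ) * (1 - 1 / r) ^ (r * L) < 1 := by
    rw [pow_mul]
    have h4 : ((1 - 1 / (r : ℝ)) ^ r) ^ L ≤ (1 / 2) ^ L := pow_le_pow_left₀ (pow_nonneg h0 _) h1 L
    have h5 : (H.card : ℝ) < 2 ^ L := by exact_mod_cast hL
    calc (H.card : ℝ) * ((1 - 1 / (r : ℝ)) ^ r) ^ L ≤ H.card * (1 / 2) ^ L :=
          mul_le_mul_of_nonneg_left h4 (Nat.cast_nonneg _)
      _ < 2 ^ L * (1 / 2) ^ L := mul_lt_mul_of_pos_right h5 (by positivity)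
      _ = 1 := by rw [← mul_pow]; norm_num
  have h6 : (H.filter fun D => ∀ γ ∈ R, ¬ rel γ D).card = 0 := by
    have : ((H.filter fun D => ∀ γ ∈ R, ¬ rel γ D).card : ℝ) < 1 := hc.trans_lt h3
    exact_mod_cast Nat.lt_one_iff.mp (by exact_mod_cast this)
  intro D hD
  by_contra hcon
  push Not at hcon
  rw [card_eq_zero, filter_eq_empty_iff] at h6
  exact h6 hD hcon

end Hit

/-- points with abscissa and ordinate, and arcs given as functions with few order changes -/
structure Setup (X J : Type*) where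
  P : Finset X
  x : X → ℝ
  y : X → ℝ
  A : Finset J
  f : J → ℝ → ℝ
  B : J → J → Finset ℝ
  top : J
  bot : J
  n : ℕ
  inj : ∀ p ∈ P, ∀ q ∈ P, x p = x q → p = q
  hB : ∀ α ∈ A, ∀ β ∈ A, (B α β).card ≤ 8
  chg : ∀ α ∈ A, ∀ β ∈ A, ∀ u v, u ≤ v → (∀ b ∈ B α β, b < u ∨ v < b) →
    (f α u < f β u ↔ f α v < f β v)
  htop : top ∈ A
  hbot : bot ∈ A
  lt_top : ∀ p ∈ P, y p < f top (x p)
  bot_lt : ∀ p ∈ P, f bot (x p) < y p
  npos : 1 ≤ n
  poor : ∀ γ ∈ A, ∀ S ⊆ P, (∀ p ∈ S, f γ (x p) = y p) → S.card ≤ n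

theorem exists_nth {X : Type*} [DecidableEq X] (x : X → ℝ) (n : ℕ) (hn : 1 ≤ n) (d : ℕ) :
    ∀ S : Finset X, (∀ p ∈ S, ∀ q ∈ S, x p = x q → p = q) → S.card = n + d →
      ∃ p ∈ S, (S.filter fun q => x q ≤ x p).card = n := by
  induction d with
  | zero =>
    intro S _ hS
    obtain ⟨p, hp, hmax⟩ := exists_max_image S x (card_pos.mp (by omega))
    exact ⟨p, hp, by rw [filter_true_of_mem hmax]; omega⟩
  | succ d ih =>
    intro S hinj hS
    obtain ⟨p, hp, hmax⟩ := exists_max_image S x (card_pos.mp (by omega))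
    obtain ⟨q, hq, hc⟩ := ih (S.erase p)
      (fun a ha b hb => hinj a (mem_of_mem_erase ha) b (mem_of_mem_erase hb))
      (by rw [card_erase_of_mem hp]; omega)
    refine ⟨q, mem_of_mem_erase hq, ?_⟩
    rw [← hc]
    congr 1
    ext a
    simp only [mem_filter, mem_erase]
    constructor
    · rintro ⟨ha, h⟩
      refine ⟨⟨?_, ha⟩, h⟩
      rintro rfl
      exact (mem_erase.mp hq).1 (hinj _ (mem_of_mem_erase hq) _ ha
        (le_antisymm (hmax _ (mem_of_mem_erase hq)) h))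
    · rintro ⟨⟨_, ha⟩, h⟩
      exact ⟨ha, h⟩

namespace Setup

variable {X J : Type*} [DecidableEq X] [DecidableEq J] (S : Setup X J)

/-- membership in a trapezoid -/
def inD (D : J × J × X × X) (p : X) : Prop :=
  S.x D.2.2.1 ≤ S.x p ∧ S.x p ≤ S.x D.2.2.2 ∧ S.f D.2.1 (S.x p) < S.y p ∧ S.y p < S.f D.1 (S.x p)

def cands : Finset (J × J × X × X) := S.A ×ˢ S.A ×ˢ S.P ×ˢ S.P

omit [DecidableEq J] in
open Classical in
theorem shrink (Q : Finset X) (hQ : Q ⊆ S.P) (D : J × J × X × X) (hD : D ∈ S.cands)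
    (h : S.n ≤ (Q.filter (S.inD D)).card) :
    ∃ D' ∈ S.cands, (Q.filter (S.inD D')).card = S.n ∧ ∀ p, S.inD D' p → S.inD D p := by
  obtain ⟨d, hd⟩ := Nat.exists_eq_add_of_le h
  obtain ⟨p, hp, hc⟩ := exists_nth S.x S.n S.npos d (Q.filter (S.inD D))
    (fun a ha b hb => S.inj a (hQ (mem_filter.mp ha).1) b (hQ (mem_filter.mp hb).1)) hd
  obtain ⟨α, β, p0, p1⟩ := D
  simp only [cands, mem_product] at hD
  have hp' := mem_filter.mp hp
  refine ⟨(α, β, p0, p), ?_, ?_, ?_⟩
  · simp only [cands, mem_product]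
    exact ⟨hD.1, hD.2.1, hD.2.2.1, hQ hp'.1⟩
  · rw [← hc]
    congr 1
    ext a
    simp only [mem_filter, inD]
    constructor
    · rintro ⟨ha, h1, h2, h3⟩
      exact ⟨⟨ha, h1, h2.trans hp'.2.2.1, h3⟩, h2⟩
    · rintro ⟨⟨ha, h1, _, h3⟩, h2⟩
      exact ⟨ha, h1, h2, h3⟩
  · rintro a ⟨h1, h2, h3⟩
    exact ⟨h1, h2.trans hp'.2.2.1, h3⟩

open Classical in
theorem cell (Q : Finset X) (hQ : Q ⊆ S.P) (R : Finset J) (hR : R ⊆ S.A) (ht : S.top ∈ R)
    (hb : S.bot ∈ R) (hbig : 52 * R.card ^ 2 * S.n ≤ Q.card) :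
    ∃ D ∈ S.cands, S.n ≤ (Q.filter (S.inD D)).card ∧
      ∀ γ ∈ R, ∀ p, S.inD D p → S.f γ (S.x p) ≠ S.y p := by
  have hρ : 1 ≤ R.card := card_pos.mpr ⟨_, ht⟩
  have hn := S.npos
  have hQne : Q.Nonempty := card_pos.mp (lt_of_lt_of_le (by positivity) hbig)
  obtain ⟨pm, hpm, hmin⟩ := exists_min_image Q S.x hQne
  let crit : J → Finset ℝ := fun α =>
    insert (S.x pm - 1) (R.biUnion fun γ => S.B α γ ∪ S.B γ α)
  have hcrit : ∀ α ∈ R, (crit α).card ≤ 17 * R.card := by
    intro α hα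
    refine (card_insert_le _ _).trans ?_
    have : (R.biUnion fun γ => S.B α γ ∪ S.B γ α).card ≤ R.card * 16 := by
      apply card_biUnion_le_card_mul
      intro γ hγ
      have h1 := S.hB α (hR hα) γ (hR hγ)
      have h2 := S.hB γ (hR hγ) α (hR hα)
      exact (card_union_le _ _).trans (by omega)
    omega
  let bad1 : Finset X := R.biUnion fun γ => Q.filter fun p => S.f γ (S.x p) = S.y p
  have hbad1 : bad1.card ≤ R.card * S.n := by
    apply card_biUnion_le_card_mul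
    intro γ hγ
    exact S.poor γ (hR hγ) _ ((filter_subset _ _).trans hQ) fun p hp => (mem_filter.mp hp).2
  let bad2 : Finset X := Q.filter fun p => S.x p ∈ R.biUnion crit
  have hbad2 : bad2.card ≤ R.card * (17 * R.card) := by
    refine le_trans ?_ (card_biUnion_le_card_mul R crit _ hcrit)
    apply card_le_card_of_injOn S.x
    · intro p hp
      exact (mem_filter.mp hp).2
    · intro a ha b hb
      exact S.inj a (hQ (mem_filter.mp ha).1) b (hQ (mem_filter.mp hb).1)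
  let Q' := Q \ (bad1 ∪ bad2)
  have hQ' : 34 * R.card ^ 2 * S.n ≤ Q'.card := by
    have h1 : Q.card ≤ Q'.card + (bad1 ∪ bad2).card := card_le_card_sdiff_add_card
    have h2 := card_union_le bad1 bad2
    have h3 : R.card * S.n ≤ R.card ^ 2 * S.n := Nat.mul_le_mul_right _ (by nlinarith)
    have h4 : R.card * (17 * R.card) ≤ 17 * (R.card ^ 2 * S.n) := by nlinarith
    nlinarith
  have hsig : ∀ p ∈ Q', ∃ α ∈ R, ∃ β ∈ R, ∃ x0 ∈ crit α ∪ crit β, x0 < S.x p ∧
      S.f β (S.x p) < S.y p ∧ S.y p < S.f α (S.x p) ∧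
      ∀ u, x0 < u → u ≤ S.x p → S.f β u < S.f α u ∧
        ∀ γ ∈ R, S.f γ u ≤ S.f β u ∨ S.f α u ≤ S.f γ u := by
    intro p hp
    obtain ⟨hpQ, hpb⟩ := mem_sdiff.mp hp
    rw [mem_union, not_or] at hpb
    obtain ⟨α, hα, hαm⟩ := exists_min_image (R.filter fun γ => S.y p < S.f γ (S.x p))
      (fun γ => S.f γ (S.x p)) ⟨S.top, mem_filter.mpr ⟨ht, S.lt_top p (hQ hpQ)⟩⟩
    obtain ⟨β, hβ, hβm⟩ := exists_max_image (R.filter fun γ => S.f γ (S.x p) < S.y p)
      (fun γ => S.f γ (S.x p)) ⟨S.bot, mem_filter.mpr ⟨hb, S.bot_lt p (hQ hpQ)⟩⟩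
    obtain ⟨hαR, hαy⟩ := mem_filter.mp hα
    obtain ⟨hβR, hβy⟩ := mem_filter.mp hβ
    obtain ⟨x0, hx0, hx0m⟩ := exists_max_image ((crit α ∪ crit β).filter fun b => b < S.x p) id
      ⟨S.x pm - 1, mem_filter.mpr ⟨mem_union_left _ (mem_insert_self _ _), by
        have := hmin p hpQ; linarith⟩⟩
    obtain ⟨hx1, hx2⟩ := mem_filter.mp hx0
    refine ⟨α, hαR, β, hβR, x0, hx1, hx2, hβy, hαy, fun u hu1 hu2 => ?_⟩
    have hno : ∀ b ∈ crit α ∪ crit β, b < u ∨ S.x p < b := by
      intro b hb'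
      rcases lt_trichotomy b (S.x p) with h | h | h
      · left
        exact lt_of_le_of_lt (hx0m b (mem_filter.mpr ⟨hb', h⟩)) hu1
      · exfalso
        apply hpb.2
        refine mem_filter.mpr ⟨hpQ, ?_⟩
        rw [← h]
        rcases mem_union.mp hb' with h' | h'
        · exact mem_biUnion.mpr ⟨α, hαR, h'⟩
        · exact mem_biUnion.mpr ⟨β, hβR, h'⟩
      · exact Or.inr h
    have c1 : ∀ γ ∈ R, (S.f γ u < S.f α u ↔ S.f γ (S.x p) < S.f α (S.x p)) := fun γ hγ =>
      S.chg γ (hR hγ) α (hR hαR) u _ hu2 fun b hb' => hno b (mem_union_left _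
        (mem_insert_of_mem (mem_biUnion.mpr ⟨γ, hγ, mem_union_right _ hb'⟩)))
    have c2 : ∀ γ ∈ R, (S.f β u < S.f γ u ↔ S.f β (S.x p) < S.f γ (S.x p)) := fun γ hγ =>
      S.chg β (hR hβR) γ (hR hγ) u _ hu2 fun b hb' => hno b (mem_union_right _
        (mem_insert_of_mem (mem_biUnion.mpr ⟨γ, hγ, mem_union_left _ hb'⟩)))
    refine ⟨(c1 β hβR).mpr (hβy.trans hαy), fun γ hγ => ?_⟩
    rcases lt_trichotomy (S.f γ (S.x p)) (S.y p) with h | h | h
    · left
      rw [← not_lt, c2 γ hγ, not_lt]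
      exact hβm γ (mem_filter.mpr ⟨hγ, h⟩)
    · exact absurd (mem_biUnion.mpr ⟨γ, hγ, mem_filter.mpr ⟨hpQ, h⟩⟩) hpb.1
    · right
      rw [← not_lt, c1 γ hγ, not_lt]
      exact hαm γ (mem_filter.mpr ⟨hγ, h⟩)
  have : Nonempty J := ⟨S.top⟩
  choose! α hα β hβ x0 hx0 h1 h2 h3 h4 using hsig
  let sg : X → Bool × (Σ _ : J, ℝ) := fun p =>
    if x0 p ∈ crit (α p) then (true, ⟨α p, x0 p⟩) else (false, ⟨β p, x0 p⟩)
  let tg : Finset (Bool × (Σ _ : J, ℝ)) := univ ×ˢ R.sigma crit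
  have htg : tg.card ≤ 34 * R.card ^ 2 := by
    have : (R.sigma crit).card ≤ R.card * (17 * R.card) := by
      rw [card_sigma]
      exact sum_le_card_nsmul _ _ _ hcrit
    simp only [tg, card_product, card_univ, Fintype.card_bool]
    nlinarith
  have hmaps : ∀ p ∈ Q', sg p ∈ tg := by
    intro p hp
    simp only [sg, tg]
    split_ifs with h
    · exact mem_product.mpr ⟨mem_univ _, mem_sigma.mpr ⟨hα p hp, h⟩⟩
    · exact mem_product.mpr ⟨mem_univ _, mem_sigma.mpr ⟨hβ p hp,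
        (mem_union.mp (hx0 p hp)).resolve_left h⟩⟩
  have hQ'ne : Q'.Nonempty := card_pos.mp (lt_of_lt_of_le (by positivity) hQ')
  obtain ⟨t, -, hcl⟩ := exists_le_card_fiber_of_mul_le_card_of_maps_to hmaps
    ⟨_, hmaps _ hQ'ne.choose_spec⟩ (n := S.n) ((Nat.mul_le_mul_right _ htg).trans hQ')
  set C := Q'.filter fun p => sg p = t with hC
  have hCne : C.Nonempty := card_pos.mp (by omega)
  obtain ⟨p1, hp1, hmax1⟩ := exists_max_image C S.x hCne
  obtain ⟨p0, hp0, hmin0⟩ := exists_min_image C S.x hCne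
  have hsame : ∀ p ∈ C, x0 p = x0 p1 ∧ (α p = α p1 ∨ β p = β p1) := by
    intro p hp
    have e : sg p = sg p1 := (mem_filter.mp hp).2.trans (mem_filter.mp hp1).2.symm
    simp only [sg] at e
    split_ifs at e with g1 g2 g2
    · simp only [Prod.mk.injEq, Sigma.mk.injEq, heq_eq_eq, true_and] at e
      exact ⟨e.2, Or.inl e.1⟩
    · simp at e
    · simp at e
    · simp only [Prod.mk.injEq, Sigma.mk.injEq, heq_eq_eq, true_and] at e
      exact ⟨e.2, Or.inr e.1⟩
  have hp1' := (mem_filter.mp hp1).1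
  have hp0' := (mem_filter.mp hp0).1
  refine ⟨(α p1, β p1, p0, p1), ?_, ?_, ?_⟩
  · simp only [cands, mem_product]
    exact ⟨hR (hα p1 hp1'), hR (hβ p1 hp1'), hQ (mem_sdiff.mp hp0').1, hQ (mem_sdiff.mp hp1').1⟩
  · refine hcl.trans (card_le_card fun p hp => ?_)
    have hp' := (mem_filter.mp hp).1
    obtain ⟨e1, e2⟩ := hsame p hp
    have a1 := h4 p hp' (S.x p) (h1 p hp') le_rfl
    have a2 := h4 p1 hp1' (S.x p) (e1 ▸ h1 p hp') (hmax1 p hp)
    have a3 := h2 p hp'
    have a4 := h3 p hp'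
    refine mem_filter.mpr ⟨(mem_sdiff.mp hp').1, hmin0 p hp, hmax1 p hp, ?_, ?_⟩
    · show S.f (β p1) (S.x p) < S.y p
      rcases e2 with e2 | e2
      · rcases a1.2 _ (hβ p1 hp1') with h | h
        · linarith
        · rw [e2] at h; linarith [a2.1]
      · rw [← e2]; exact a3
    · show S.y p < S.f (α p1) (S.x p)
      rcases e2 with e2 | e2
      · rw [← e2]; exact a4
      · rcases a1.2 _ (hα p1 hp1') with h | h
        · rw [e2] at h; linarith [a2.1]
        · linarith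
  · rintro γ hγ p ⟨b1, b2, b3, b4⟩ e
    have a0 : x0 p1 < S.x p := by
      have := h1 p0 hp0'
      rw [(hsame p0 hp0).1] at this
      exact this.trans_le b1
    rcases (h4 p1 hp1' (S.x p) a0 b2).2 γ hγ with h | h
    · simp only at b3; linarith
    · simp only at b4; linarith

/-- the arc passes through a point of `Q` in the trapezoid -/
def meets (Q : Finset X) (γ : J) (D : J × J × X × X) : Prop :=
  ∃ p ∈ Q, S.inD D p ∧ S.f γ (S.x p) = S.y p

open Classical in
theorem onecell (L : ℕ) (hL1 : 1 ≤ L) (hL : S.cands.card < 2 ^ L) (Q : Finset X) (hQ : Q ⊆ S.P)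
    (t : ℕ) (ht : t * S.n < Q.card) (w : J → ℝ) (hw : ∀ γ ∈ S.A, 0 < w γ) :
    ∃ D ∈ S.cands, (Q.filter (S.inD D)).card = min S.n Q.card ∧
      ∑ γ ∈ S.A.filter (fun γ => S.meets Q γ D), w γ ≤ 62 * L / √(t + 1) * ∑ γ ∈ S.A, w γ := by
  have hW : 0 ≤ ∑ γ ∈ S.A, w γ := sum_nonneg fun γ hγ => (hw γ hγ).le
  have hs : 0 < √((t : ℝ) + 1) := Real.sqrt_pos.mpr (by positivity)
  have hL' : (1 : ℝ) ≤ L := by exact_mod_cast hL1
  by_cases hcase : √((t : ℝ) + 1) ≤ 62 * L
  · have hQne : Q.Nonempty := card_pos.mp (by omega)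
    obtain ⟨p1, hp1, hmax⟩ := exists_max_image Q S.x hQne
    obtain ⟨p0, hp0, hmin⟩ := exists_min_image Q S.x hQne
    have hD : (S.top, S.bot, p0, p1) ∈ S.cands := by
      simp only [cands, mem_product]
      exact ⟨S.htop, S.hbot, hQ hp0, hQ hp1⟩
    have hall : Q.filter (S.inD (S.top, S.bot, p0, p1)) = Q :=
      filter_true_of_mem fun p hp => ⟨hmin p hp, hmax p hp, S.bot_lt p (hQ hp), S.lt_top p (hQ hp)⟩
    have hle : ∀ D, ∑ γ ∈ S.A.filter (fun γ => S.meets Q γ D), w γ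
        ≤ 62 * L / √(t + 1) * ∑ γ ∈ S.A, w γ := by
      intro D
      refine (sum_le_sum_of_subset_of_nonneg (filter_subset _ _)
        fun γ hγ _ => (hw γ hγ).le).trans (le_mul_of_one_le_left hW ?_)
      rwa [le_div_iff₀ hs, one_mul]
    by_cases hn : S.n ≤ Q.card
    · obtain ⟨D', hD', hc, -⟩ := S.shrink Q hQ _ hD (by rwa [hall])
      exact ⟨D', hD', by rw [hc, min_eq_left hn], hle _⟩
    · exact ⟨_, hD, by rw [hall, min_eq_right (by omega)], hle _⟩
  · push Not at hcase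
    set r : ℕ := ⌈√((t : ℝ) + 1) / (62 * L)⌉₊ with hr
    have hq : 1 < √((t : ℝ) + 1) / (62 * L) := by
      rwa [lt_div_iff₀ (by positivity), one_mul]
    have hr1 : √((t : ℝ) + 1) / (62 * L) ≤ r := Nat.le_ceil _
    have hr2 : (r : ℝ) ≤ 2 * (√((t : ℝ) + 1) / (62 * L)) := by
      have := Nat.ceil_lt_add_one (show 0 ≤ √((t : ℝ) + 1) / (62 * L) by positivity)
      linarith
    have hr3 : 1 ≤ r := by
      have : (1 : ℝ) ≤ r := by linarith
      exact_mod_cast this
    obtain ⟨R, hR, hRc, hhit⟩ := hit S.A w hw ⟨_, S.htop⟩ (fun γ D => S.meets Q γ D) r L hr3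
      (S.cands.filter fun D => ∑ γ ∈ S.A, w γ ≤ r * ∑ γ ∈ S.A.filter (fun γ => S.meets Q γ D), w γ)
      ((card_filter_le _ _).trans_lt hL) (fun D hD => by convert (mem_filter.mp hD).2)
    have hbig : 52 * (insert S.top (insert S.bot R)).card ^ 2 * S.n ≤ Q.card := by
      have h1 : (insert S.top (insert S.bot R)).card ≤ 3 * (r * L) := by
        have a1 := card_insert_le S.top (insert S.bot R)
        have a2 := card_insert_le S.bot R
        have a3 : 1 ≤ r * L := Nat.mul_pos hr3 hL1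
        omega
      have h2 : ((r * L : ℕ) : ℝ) ≤ √((t : ℝ) + 1) / 31 := by
        push_cast
        calc (r : ℝ) * L ≤ 2 * (√((t : ℝ) + 1) / (62 * L)) * L :=
              mul_le_mul_of_nonneg_right hr2 (by positivity)
          _ = √((t : ℝ) + 1) / 31 := by field_simp; ring
      have h3 : ((r * L : ℕ) : ℝ) ^ 2 ≤ (t + 1) / 961 := by
        calc ((r * L : ℕ) : ℝ) ^ 2 ≤ (√((t : ℝ) + 1) / 31) ^ 2 :=
              pow_le_pow_left₀ (Nat.cast_nonneg _) h2 2
          _ = (t + 1) / 961 := by rw [div_pow, Real.sq_sqrt (by positivity)]; norm_num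
      have h4 : 961 * (r * L) ^ 2 ≤ t + 1 := by
        have : (961 : ℝ) * ((r * L : ℕ) : ℝ) ^ 2 ≤ t + 1 := by linarith
        exact_mod_cast this
      have h5 : 1 ≤ (r * L) ^ 2 := Nat.one_le_pow _ _ (Nat.mul_pos hr3 hL1)
      have h6 : 52 * (insert S.top (insert S.bot R)).card ^ 2 ≤ t := by
        have := Nat.pow_le_pow_left h1 2
        rw [mul_pow] at this
        omega
      exact (Nat.mul_le_mul_right _ h6).trans ht.le
    obtain ⟨D, hD, hc, hno⟩ := S.cell Q hQ (insert S.top (insert S.bot R))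
      (insert_subset S.htop (insert_subset S.hbot hR)) (mem_insert_self _ _)
      (mem_insert_of_mem (mem_insert_self _ _)) hbig
    obtain ⟨D', hD', hc', hsub⟩ := S.shrink Q hQ D hD hc
    refine ⟨D', hD', by rw [hc', min_eq_left (hc.trans (card_filter_le _ _))], ?_⟩
    by_contra hcon
    push Not at hcon
    obtain ⟨γ, hγ, p, _, hp, he⟩ := hhit D' (mem_filter.mpr ⟨hD', by
      have h0 : (1 : ℝ) ≤ r * (62 * L / √(t + 1)) := by
        rw [div_le_iff₀ (by positivity)] at hr1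
        rw [← mul_div_assoc, le_div_iff₀ hs, one_mul]
        exact hr1
      calc ∑ γ ∈ S.A, w γ ≤ (r * (62 * L / √(t + 1))) * ∑ γ ∈ S.A, w γ :=
            le_mul_of_one_le_left hW h0
        _ = r * (62 * L / √(t + 1) * ∑ γ ∈ S.A, w γ) := by ring
        _ ≤ _ := mul_le_mul_of_nonneg_left hcon.le (Nat.cast_nonneg _)⟩)
    exact hno γ (mem_insert_of_mem (mem_insert_of_mem hγ)) p (hsub p hp) he

open Classical in
theorem part_aux (L : ℕ) (hL1 : 1 ≤ L) (hL : S.cands.card < 2 ^ L) (t : ℕ) :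
    ∀ Q ⊆ S.P, Q.card ≤ t * S.n → ∀ w : J → ℝ, (∀ γ ∈ S.A, 0 < w γ) →
      ∃ (π : X → ℕ) (cnt : J → ℕ) (Bk : J → Finset ℝ), (∀ p ∈ Q, π p < t) ∧
        (∀ j, (Q.filter fun p => π p = j).card ≤ S.n) ∧
        ∑ γ ∈ S.A, w γ * 2 ^ cnt γ ≤ Real.exp (124 * L * √t) * ∑ γ ∈ S.A, w γ ∧
        (∀ γ ∈ S.A, (Bk γ).card ≤ 18 * cnt γ) ∧
        ∀ γ ∈ S.A, ∀ p ∈ Q, ∀ q ∈ Q, S.f γ (S.x p) = S.y p → S.f γ (S.x q) = S.y q →
          S.x p ≤ S.x q → (∀ b ∈ Bk γ, b < S.x p ∨ S.x q < b) → π p = π q := by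
  induction t with
  | zero =>
    intro Q _ hc w _
    have : Q = ∅ := card_eq_zero.mp (by omega)
    subst this
    exact ⟨fun _ => 0, fun _ => 0, fun _ => ∅, by simp, by simp, by simp, by simp, by simp⟩
  | succ t ih =>
    intro Q hQ hc w hw
    have hW : 0 ≤ ∑ γ ∈ S.A, w γ := sum_nonneg fun γ hγ => (hw γ hγ).le
    have hs : 0 < √((t : ℝ) + 1) := Real.sqrt_pos.mpr (by positivity)
    have hsq : 2 * √(t : ℝ) + 1 / √((t : ℝ) + 1) ≤ 2 * √((t : ℝ) + 1) := by
      have a1 := Real.sq_sqrt (show (0 : ℝ) ≤ t by positivity)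
      have a2 := Real.sq_sqrt (show (0 : ℝ) ≤ t + 1 by positivity)
      have : 1 / √((t : ℝ) + 1) ≤ 2 * √((t : ℝ) + 1) - 2 * √(t : ℝ) := by
        rw [div_le_iff₀ hs]
        nlinarith [sq_nonneg (√((t : ℝ) + 1) - √(t : ℝ))]
      linarith
    have hL0 : (0 : ℝ) ≤ L := Nat.cast_nonneg _
    by_cases hcase : Q.card ≤ t * S.n
    · obtain ⟨π, cnt, Bk, a1, a2, a3, a4, a5⟩ := ih Q hQ hcase w hw
      refine ⟨π, cnt, Bk, fun p hp => (a1 p hp).trans (Nat.lt_succ_self t), a2,
        a3.trans (mul_le_mul_of_nonneg_right (Real.exp_le_exp.mpr ?_) hW), a4, a5⟩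
      push_cast
      have : 0 < 1 / √((t : ℝ) + 1) := by positivity
      nlinarith
    · obtain ⟨D, hD, hDc, hDw⟩ := S.onecell L hL1 hL Q hQ t (by omega) w hw
      obtain ⟨π, cnt, Bk, a1, a2, a3, a4, a5⟩ := ih (Q.filter fun p => ¬ S.inD D p)
        ((filter_subset _ _).trans hQ) (by
          have := card_filter_add_card_filter_not (s := Q) (S.inD D)
          rw [add_mul, one_mul] at hc
          omega)
        (fun γ => if S.meets Q γ D then 2 * w γ else w γ) (fun γ hγ => by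
          have := hw γ hγ
          split_ifs <;> linarith)
      simp only [cands, mem_product] at hD
      refine ⟨fun p => if S.inD D p then t else π p,
        fun γ => if S.meets Q γ D then cnt γ + 1 else cnt γ,
        fun γ => if S.meets Q γ D then
          Bk γ ∪ (S.B D.2.1 γ ∪ S.B γ D.1 ∪ {S.x D.2.2.1, S.x D.2.2.2}) else Bk γ,
        ?_, ?_, ?_, ?_, ?_⟩
      · intro p hp
        simp only
        split_ifs with h
        · exact Nat.lt_succ_self t
        · exact (a1 p (mem_filter.mpr ⟨hp, h⟩)).trans (Nat.lt_succ_self t)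
      · intro j
        by_cases hj : j = t
        · refine le_trans (card_le_card fun p hp => ?_) (hDc.le.trans (min_le_left _ _))
          obtain ⟨hp1, hp2⟩ := mem_filter.mp hp
          simp only at hp2
          refine mem_filter.mpr ⟨hp1, ?_⟩
          by_contra h
          rw [if_neg h, hj] at hp2
          exact (a1 p (mem_filter.mpr ⟨hp1, h⟩)).ne hp2
        · refine le_trans (card_le_card fun p hp => ?_) (a2 j)
          obtain ⟨hp1, hp2⟩ := mem_filter.mp hp
          simp only at hp2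
          by_cases h : S.inD D p
          · rw [if_pos h] at hp2
            exact absurd hp2.symm hj
          · rw [if_neg h] at hp2
            exact mem_filter.mpr ⟨mem_filter.mpr ⟨hp1, h⟩, hp2⟩
      · have e1 : ∑ γ ∈ S.A, w γ * 2 ^ (if S.meets Q γ D then cnt γ + 1 else cnt γ)
            = ∑ γ ∈ S.A, (if S.meets Q γ D then 2 * w γ else w γ) * 2 ^ cnt γ := by
          refine sum_congr rfl fun γ _ => ?_
          split_ifs
          · ring
          · rfl
        have e2 : ∑ γ ∈ S.A, (if S.meets Q γ D then 2 * w γ else w γ)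
            = ∑ γ ∈ S.A, w γ + ∑ γ ∈ S.A.filter (fun γ => S.meets Q γ D), w γ := by
          rw [sum_filter, ← sum_add_distrib]
          refine sum_congr rfl fun γ _ => ?_
          split_ifs <;> ring
        rw [e1]
        refine a3.trans ?_
        rw [e2]
        have h1 : ∑ γ ∈ S.A, w γ + ∑ γ ∈ S.A.filter (fun γ => S.meets Q γ D), w γ
            ≤ Real.exp (62 * L / √(t + 1)) * ∑ γ ∈ S.A, w γ := by
          have := Real.add_one_le_exp (62 * L / √((t : ℝ) + 1))
          nlinarith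
        refine (mul_le_mul_of_nonneg_left h1 (Real.exp_pos _).le).trans ?_
        rw [← mul_assoc, ← Real.exp_add]
        refine mul_le_mul_of_nonneg_right (Real.exp_le_exp.mpr ?_) hW
        push_cast
        have : 62 * L / √((t : ℝ) + 1) = 62 * L * (1 / √((t : ℝ) + 1)) := by ring
        rw [this]
        nlinarith
      · intro γ hγ
        simp only
        split_ifs
        · have b1 := a4 γ hγ
          have b2 := S.hB _ hD.2.1 γ hγ
          have b3 := S.hB γ hγ _ hD.1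
          have b4 : ({S.x D.2.2.1, S.x D.2.2.2} : Finset ℝ).card ≤ 2 := card_le_two
          have b5 := card_union_le (Bk γ)
            (S.B D.2.1 γ ∪ S.B γ D.1 ∪ {S.x D.2.2.1, S.x D.2.2.2})
          have b6 := card_union_le (S.B D.2.1 γ ∪ S.B γ D.1) {S.x D.2.2.1, S.x D.2.2.2}
          have b7 := card_union_le (S.B D.2.1 γ) (S.B γ D.1)
          omega
        · exact a4 γ hγ
      · intro γ hγ p hp q hq ep eq hle hb
        simp only at hb ⊢
        have hiff : S.inD D p ↔ S.inD D q := by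
          by_cases hm : S.meets Q γ D
          · rw [if_pos hm] at hb
            have c1 := S.chg _ hD.2.1 γ hγ _ _ hle fun b h => hb b
              (mem_union_right _ (mem_union_left _ (mem_union_left _ h)))
            have c2 := S.chg γ hγ _ hD.1 _ _ hle fun b h => hb b
              (mem_union_right _ (mem_union_left _ (mem_union_right _ h)))
            have c3 := hb (S.x D.2.2.1) (mem_union_right _ (mem_union_right _ (by simp)))
            have c4 := hb (S.x D.2.2.2) (mem_union_right _ (mem_union_right _ (by simp)))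
            rw [ep, eq] at c1 c2
            simp only [inD]
            rw [c1, c2]
            constructor
            · rintro ⟨d1, d2, d3⟩
              refine ⟨by linarith, ?_, d3⟩
              rcases c4 with h | h <;> linarith
            · rintro ⟨d1, d2, d3⟩
              refine ⟨?_, by linarith, d3⟩
              rcases c3 with h | h <;> linarith
          · exact ⟨fun h => absurd ⟨p, hp, h, ep⟩ hm, fun h => absurd ⟨q, hq, h, eq⟩ hm⟩
        by_cases h : S.inD D p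
        · rw [if_pos h, if_pos (hiff.mp h)]
        · have h' : ¬ S.inD D q := fun h2 => h (hiff.mpr h2)
          rw [if_neg h, if_neg h']
          refine a5 γ hγ p (mem_filter.mpr ⟨hp, h⟩) q (mem_filter.mpr ⟨hq, h'⟩) ep eq hle
            fun b hb' => hb b ?_
          split_ifs
          · exact mem_union_left _ hb'
          · exact hb'

open Classical in
/-- partition theorem -/
theorem partition (L : ℕ) (hL1 : 1 ≤ L) (hL : S.cands.card < 2 ^ L) (hA : S.A.card ≤ 2 ^ L)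
    (D : ℕ) (hD : 1 ≤ D) (ht : S.P.card ≤ D ^ 2 * S.n) :
    ∃ (π : X → ℕ) (χ : J → ℝ → ℕ), (∀ p ∈ S.P, π p < D ^ 2) ∧
      (∀ j, (S.P.filter fun p => π p = j).card ≤ S.n) ∧ (∀ γ, Monotone (χ γ)) ∧
      (∀ γ ∈ S.A, ∀ u, χ γ u ≤ 9000 * L * D) ∧
      ∀ γ ∈ S.A, ∀ p ∈ S.P, ∀ q ∈ S.P, S.f γ (S.x p) = S.y p → S.f γ (S.x q) = S.y q →
        χ γ (S.x p) = χ γ (S.x q) → π p = π q := by
  obtain ⟨π, cnt, Bk, a1, a2, a3, a4, a5⟩ := S.part_aux L hL1 hL (D ^ 2) S.P subset_rfl ht
    (fun _ => 1) (fun _ _ => one_pos)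
  have hcnt : ∀ γ ∈ S.A, cnt γ ≤ 250 * L * D := by
    intro γ hγ
    have h1 : (1 : ℝ) * 2 ^ cnt γ ≤ ∑ γ ∈ S.A, (1 : ℝ) * 2 ^ cnt γ :=
      single_le_sum (f := fun γ => (1 : ℝ) * 2 ^ cnt γ) (fun _ _ => by positivity) hγ
    have h2 : √((D ^ 2 : ℕ) : ℝ) = D := by
      push_cast
      exact Real.sqrt_sq (Nat.cast_nonneg _)
    rw [h2, sum_const, nsmul_eq_mul, mul_one] at a3
    have h3 : Real.exp (124 * L * D) ≤ 2 ^ (248 * L * D) := by
      have e : (124 * L * D : ℝ) = ((124 * L * D : ℕ) : ℝ) * 1 := by push_cast; ring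
      rw [e, Real.exp_nat_mul, show 248 * L * D = 2 * (124 * L * D) by ring, pow_mul 2]
      apply pow_le_pow_left₀ (Real.exp_pos _).le
      have := Real.exp_one_lt_d9
      linarith
    have h4 : (S.A.card : ℝ) ≤ 2 ^ L := by exact_mod_cast hA
    have h5 : (2 : ℝ) ^ cnt γ ≤ 2 ^ (248 * L * D + L) := by
      rw [pow_add]
      calc (2 : ℝ) ^ cnt γ ≤ Real.exp (124 * L * D) * S.A.card := by linarith
        _ ≤ _ := mul_le_mul h3 h4 (Nat.cast_nonneg _) (by positivity)
    have h6 := (pow_le_pow_iff_right₀ (by norm_num : (1 : ℝ) < 2)).mp h5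
    nlinarith
  refine ⟨π, fun γ u => ((Bk γ).filter fun b => b < u).card + ((Bk γ).filter fun b => b ≤ u).card,
    a1, a2, ?_, ?_, ?_⟩
  · intro γ u v huv
    exact Nat.add_le_add
      (card_le_card fun b hb => mem_filter.mpr
        ⟨(mem_filter.mp hb).1, (mem_filter.mp hb).2.trans_le huv⟩)
      (card_le_card fun b hb => mem_filter.mpr
        ⟨(mem_filter.mp hb).1, (mem_filter.mp hb).2.trans huv⟩)
  · intro γ hγ u
    have b1 := card_filter_le (Bk γ) fun b => b < u
    have b2 := card_filter_le (Bk γ) fun b => b ≤ u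
    have b3 := a4 γ hγ
    have b4 := hcnt γ hγ
    simp only
    nlinarith
  · have key : ∀ γ ∈ S.A, ∀ p ∈ S.P, ∀ q ∈ S.P, S.f γ (S.x p) = S.y p → S.f γ (S.x q) = S.y q →
        S.x p < S.x q →
        ((Bk γ).filter fun b => b < S.x p).card + ((Bk γ).filter fun b => b ≤ S.x p).card
          = ((Bk γ).filter fun b => b < S.x q).card + ((Bk γ).filter fun b => b ≤ S.x q).card →
        π p = π q := by
      intro γ hγ p hp q hq ep eq hlt h
      have s1 : ((Bk γ).filter fun b => b < S.x p) ⊆ (Bk γ).filter fun b => b < S.x q :=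
        fun b hb => mem_filter.mpr ⟨(mem_filter.mp hb).1, (mem_filter.mp hb).2.trans hlt⟩
      have s2 : ((Bk γ).filter fun b => b ≤ S.x p) ⊆ (Bk γ).filter fun b => b ≤ S.x q :=
        fun b hb => mem_filter.mpr ⟨(mem_filter.mp hb).1, (mem_filter.mp hb).2.trans hlt.le⟩
      have c1 := card_le_card s1
      have c2 := card_le_card s2
      have e1 := eq_of_subset_of_card_le s1 (by omega)
      have e2 := eq_of_subset_of_card_le s2 (by omega)
      refine a5 γ hγ p hp q hq ep eq hlt.le fun b hb => ?_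
      by_contra hcon
      push Not at hcon
      rcases hcon.2.lt_or_eq with g | g
      · have : b ∈ (Bk γ).filter fun b => b < S.x p := e1 ▸ mem_filter.mpr ⟨hb, g⟩
        exact absurd (mem_filter.mp this).2 (not_lt.mpr hcon.1)
      · have : b ∈ (Bk γ).filter fun b => b ≤ S.x p := e2 ▸ mem_filter.mpr ⟨hb, g.le⟩
        have := (mem_filter.mp this).2
        linarith
    intro γ hγ p hp q hq ep eq h
    rcases lt_trichotomy (S.x p) (S.x q) with g | g | g
    · exact key γ hγ p hp q hq ep eq g h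
    · rw [S.inj p hp q hq g]
    · exact (key γ hγ q hq p hp eq ep g h.symm).symm

end Setup

end Pool.Agent.Lib.MP_b2463a_co
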