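import Mathlib
import Pool.Agent.Lib.MP_b2463a_co.Part
import Pool.Agent.Lib.MP_b2463a_co.Arcs

namespace Pool.Agent.Lib.MP_b2463a_co

open Finset

section General

variable {X : Type*} [DecidableEq X]

omit [DecidableEq X] in
theorem sq_le_colors {C : Type*} [DecidableEq C] (A : Finset X) (col : X → C) (T : Finset C)
    (h : ∀ a ∈ A, col a ∈ T) :
    A.card ^ 2 ≤ T.card * ((A ×ˢ A).filter fun z => col z.1 = col z.2).card := by
  have h1 : A.card = ∑ c ∈ T, (A.filter fun a => col a = c).card :=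
    card_eq_sum_card_fiberwise h
  have h2 : ((A ×ˢ A).filter fun z => col z.1 = col z.2).card
      = ∑ c ∈ T, (A.filter fun a => col a = c).card ^ 2 := by
    rw [card_eq_sum_card_fiberwise (f := fun z => col z.1) (t := T)
      (fun z hz => h _ (mem_product.mp (mem_filter.mp hz).1).1)]
    refine sum_congr rfl fun c _ => ?_
    rw [sq, ← card_product]
    congr 1
    ext z
    simp only [mem_filter, mem_product]
    constructor
    · rintro ⟨⟨⟨h1, h2⟩, h3⟩, h4⟩
      exact ⟨⟨h1, h4⟩, h2, h3 ▸ h4⟩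
    · rintro ⟨⟨h1, h4⟩, h2, h3⟩
      exact ⟨⟨⟨h1, h2⟩, h4.trans h3.symm⟩, h4⟩
  rw [h1, h2]
  exact sq_sum_le_card_mul_sum_sq

theorem rich_sum {I : Type*} [DecidableEq I] (P : Finset X) (T : Finset I) (S : I → Finset X)
    (hS : ∀ i ∈ T, S i ⊆ P) (hint : ∀ i ∈ T, ∀ j ∈ T, i ≠ j → (S i ∩ S j).card ≤ 4) (n : ℕ)
    (hn : ∀ i ∈ T, n ≤ (S i).card) (hm : 8 * P.card ≤ n ^ 2) :
    ∑ i ∈ T, (S i).card ≤ 2 * P.card := by
  set I := ∑ i ∈ T, (S i).card with hI
  let deg : X → ℕ := fun p => ∑ i ∈ T, if p ∈ S i then 1 else 0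
  have e1 : ∑ p ∈ P, deg p = I := by
    rw [sum_comm]
    refine sum_congr rfl fun i hi => ?_
    rw [← card_filter, filter_mem_eq_inter, inter_eq_right.mpr (hS i hi)]
  have e2 : ∑ p ∈ P, deg p ^ 2 ≤ I + 4 * T.card ^ 2 := by
    have : ∑ p ∈ P, deg p ^ 2 = ∑ i ∈ T, ∑ j ∈ T, (P ∩ (S i ∩ S j)).card := by
      simp only [deg, sq, sum_mul_sum]
      rw [sum_comm]
      refine sum_congr rfl fun i _ => ?_
      rw [sum_comm]
      refine sum_congr rfl fun j _ => ?_
      rw [← filter_mem_eq_inter, card_filter]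
      refine sum_congr rfl fun p _ => ?_
      by_cases h1 : p ∈ S i <;> by_cases h2 : p ∈ S j <;> simp [h1, h2]
    rw [this, hI, sq, ← mul_assoc, ← smul_eq_mul, mul_comm 4, ← smul_eq_mul T.card, smul_assoc,
      ← sum_const, ← sum_add_distrib]
    refine sum_le_sum fun i hi => ?_
    calc ∑ j ∈ T, (P ∩ (S i ∩ S j)).card ≤ ∑ j ∈ T, ((if j = i then (S i).card else 0) + 4) := by
          refine sum_le_sum fun j hj => ?_
          split_ifs with h
          · exact (card_le_card (inter_subset_right.trans inter_subset_left)).trans (by omega)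
          · exact (card_le_card inter_subset_right).trans
              ((hint i hi j hj (Ne.symm h)).trans (by omega))
      _ = _ := by
          rw [sum_add_distrib, sum_ite_eq', if_pos hi, sum_const, smul_eq_mul, smul_eq_mul,
            mul_comm]
  have e3 : I ^ 2 ≤ P.card * (I + 4 * T.card ^ 2) := by
    rw [← e1]
    refine sq_sum_le_card_mul_sum_sq.trans (Nat.mul_le_mul_left _ ?_)
    rw [e1]
    exact e2
  have e4 : T.card * n ≤ I := by
    rw [← smul_eq_mul]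
    exact card_nsmul_le_sum _ _ _ hn
  have e5 : 8 * P.card * T.card ^ 2 ≤ I ^ 2 := by
    calc 8 * P.card * T.card ^ 2 ≤ n ^ 2 * T.card ^ 2 := Nat.mul_le_mul_right _ hm
      _ = (T.card * n) ^ 2 := by ring
      _ ≤ I ^ 2 := Nat.pow_le_pow_left e4 2
  by_contra hcon
  push Not at hcon
  nlinarith

variable [AddCommGroup X]

def cnt (P : Finset X) (Φ : X × X × X × X → Prop) [DecidablePred Φ] : ℕ :=
  ((P ×ˢ P ×ˢ P ×ˢ P).filter fun q => q.1 + q.2.1 = q.2.2.1 + q.2.2.2 ∧ Φ q).card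

def En (P : Finset X) : ℕ :=
  ((P ×ˢ P ×ˢ P ×ˢ P).filter fun q => q.1 + q.2.1 = q.2.2.1 + q.2.2.2).card

theorem cnt_sum (P : Finset X) (Φ : X × X × X × X → Prop) [DecidablePred Φ] (S : Finset X)
    (hS : ∀ a ∈ P, ∀ b ∈ P, a + b ∈ S) :
    cnt P Φ = ∑ s ∈ S, (((P.filter fun a => s - a ∈ P) ×ˢ (P.filter fun a => s - a ∈ P)).filter
      fun z => Φ (z.1, s - z.1, z.2, s - z.2)).card := by
  rw [cnt, card_eq_sum_card_fiberwise (f := fun q => q.1 + q.2.1) (t := S) (fun q hq => by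
    have := (mem_filter.mp hq).1
    simp only [mem_product] at this
    exact hS _ this.1 _ this.2.1)]
  refine sum_congr rfl fun s _ => ?_
  apply card_nbij' (fun q => (q.1, q.2.2.1)) (fun z => (z.1, s - z.1, z.2, s - z.2))
  · rintro ⟨a, b, c, d⟩ hq
    simp only [coe_filter, mem_filter, mem_product, Set.mem_ofPred_eq] at hq ⊢
    obtain ⟨⟨⟨ha, hb, hc, hd⟩, h1, h2⟩, h3⟩ := hq
    have e1 : s - a = b := by rw [← h3]; abel
    have e2 : s - c = d := by rw [← h3, h1]; abel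
    rw [e1, e2]
    exact ⟨⟨⟨ha, hb⟩, hc, hd⟩, h2⟩
  · rintro ⟨a, c⟩ hz
    simp only [coe_filter, mem_filter, mem_product, Set.mem_ofPred_eq] at hz ⊢
    obtain ⟨⟨⟨ha, hb⟩, hc, hd⟩, h2⟩ := hz
    exact ⟨⟨⟨ha, hb, hc, hd⟩, by abel, h2⟩, by abel⟩
  · rintro ⟨a, b, c, d⟩ hq
    simp only [coe_filter, mem_filter, mem_product, Set.mem_ofPred_eq] at hq ⊢
    obtain ⟨⟨_, h1, _⟩, h3⟩ := hq
    have e1 : s - a = b := by rw [← h3]; abel
    have e2 : s - c = d := by rw [← h3, h1]; abel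
    rw [e1, e2]
  · rintro ⟨a, c⟩ _
    rfl

theorem cnt_diff (P : Finset X) (Φ : X × X × X × X → Prop) [DecidablePred Φ] (S : Finset X)
    (hS : ∀ a ∈ P, ∀ b ∈ P, a - b ∈ S) :
    cnt P Φ = ∑ v ∈ S, (((P.filter fun a => a - v ∈ P) ×ˢ (P.filter fun a => a - v ∈ P)).filter
      fun z => Φ (z.1, z.2 - v, z.1 - v, z.2)).card := by
  rw [cnt, card_eq_sum_card_fiberwise (f := fun q => q.1 - q.2.2.1) (t := S) (fun q hq => by
    have := (mem_filter.mp hq).1
    simp only [mem_product] at this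
    exact hS _ this.1 _ this.2.2.1)]
  refine sum_congr rfl fun v _ => ?_
  apply card_nbij' (fun q => (q.1, q.2.2.2)) (fun z => (z.1, z.2 - v, z.1 - v, z.2))
  · rintro ⟨a, b, c, d⟩ hq
    simp only [coe_filter, mem_filter, mem_product, Set.mem_ofPred_eq] at hq ⊢
    obtain ⟨⟨⟨ha, hb, hc, hd⟩, h1, h2⟩, h3⟩ := hq
    have e1 : a - v = c := by rw [← h3]; abel
    have e2 : d - v = b := by rw [← h3, ← add_left_inj a, add_comm b, h1]; abel
    rw [e1, e2]
    exact ⟨⟨⟨ha, hc⟩, hd, hb⟩, h2⟩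
  · rintro ⟨a, c⟩ hz
    simp only [coe_filter, mem_filter, mem_product, Set.mem_ofPred_eq] at hz ⊢
    obtain ⟨⟨⟨ha, hb⟩, hc, hd⟩, h2⟩ := hz
    exact ⟨⟨⟨ha, hd, hb, hc⟩, by abel, h2⟩, by abel⟩
  · rintro ⟨a, b, c, d⟩ hq
    simp only [coe_filter, mem_filter, mem_product, Set.mem_ofPred_eq] at hq ⊢
    obtain ⟨⟨_, h1, _⟩, h3⟩ := hq
    have e1 : a - v = c := by rw [← h3]; abel
    have e2 : d - v = b := by rw [← h3, ← add_left_inj a, add_comm b, h1]; abel
    rw [e1, e2]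
  · rintro ⟨a, c⟩ _
    rfl

theorem En_eq_sum (P S : Finset X) (hS : ∀ a ∈ P, ∀ b ∈ P, a + b ∈ S) :
    En P = ∑ s ∈ S, (P.filter fun a => s - a ∈ P).card ^ 2 := by
  have : En P = cnt P fun _ => True := by simp [En, cnt]
  rw [this, cnt_sum P _ S hS]
  simp [sq]

theorem En_le_cube (P : Finset X) : En P ≤ P.card ^ 3 := by
  have : P.card ^ 3 = (P ×ˢ P ×ˢ P).card := by simp [card_product]; ring
  rw [this, En]
  apply card_le_card_of_injOn (fun q => (q.1, q.2.1, q.2.2.1))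
  · intro q hq
    have := (mem_filter.mp hq).1
    simp only [mem_product, coe_product, Set.mem_prod, mem_coe] at this ⊢
    exact ⟨this.1, this.2.1, this.2.2.1⟩
  · rintro ⟨a, b, c, d⟩ hq ⟨a', b', c', d'⟩ hq' h
    have h1 := (mem_filter.mp hq).2
    have h2 := (mem_filter.mp hq').2
    simp only [Prod.mk.injEq] at h h1 h2 ⊢
    obtain ⟨rfl, rfl, rfl⟩ := h
    exact ⟨rfl, rfl, rfl, add_left_cancel (h1.symm.trans h2)⟩

theorem cnt_parts (P : Finset X) (π : X → ℕ) (T : ℕ) (hπ : ∀ p ∈ P, π p < T) :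
    cnt P (fun q => π q.1 = π q.2.2.1 ∧ π q.2.1 = π q.2.2.2 ∧ π q.1 = π q.2.2.2)
      ≤ ∑ j ∈ range T, En (P.filter fun p => π p = j) := by
  rw [cnt, card_eq_sum_card_fiberwise (f := fun q => π q.1) (t := range T) (fun q hq => by
    have := (mem_filter.mp hq).1
    simp only [mem_product] at this
    exact mem_range.mpr (hπ _ this.1))]
  refine sum_le_sum fun j _ => card_le_card ?_
  rintro ⟨a, b, c, d⟩ hq
  simp only [mem_filter, mem_product] at hq ⊢
  obtain ⟨⟨⟨ha, hb, hc, hd⟩, h1, h2, h3, h4⟩, h5⟩ := hq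
  exact ⟨⟨⟨ha, h5⟩, ⟨hb, by omega⟩, ⟨hc, by omega⟩, hd, by omega⟩, h1⟩

end General

def nsq (p : V) : ℝ := p.1 ^ 2 + p.2.1 ^ 2 + p.2.2 ^ 2

structure Gen (P : Finset V) : Prop where
  sph : ∀ p ∈ P, nsq p = 1
  inj : ∀ p ∈ P, ∀ q ∈ P, p.1 = q.1 → p = q
  add : ∀ p ∈ P, ∀ q ∈ P, p + q ≠ 0 → (p + q).2.2 ≠ 0
  sub : ∀ p ∈ P, ∀ q ∈ P, p - q ≠ 0 → (p - q).2.2 ≠ 0

theorem Gen.mono {P Q : Finset V} (h : Gen P) (hQ : Q ⊆ P) : Gen Q :=
  ⟨fun p hp => h.sph p (hQ hp), fun p hp q hq => h.inj p (hQ hp) q (hQ hq),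
    fun p hp q hq => h.add p (hQ hp) q (hQ hq), fun p hp q hq => h.sub p (hQ hp) q (hQ hq)⟩

noncomputable def tr (w : V) : V := (-w.1 / w.2.2, -w.2.1 / w.2.2, nsq w / (2 * w.2.2))

theorem on_ell {p w : V} (hp : nsq p = 1) (hw : nsq (w - p) = 1) (h : w.2.2 ≠ 0) :
    Ell (tr w) p.1 p.2.1 := by
  have : (tr w).1 * p.1 + (tr w).2.1 * p.2.1 + (tr w).2.2 = p.2.2 := by
    simp only [tr, nsq, Prod.fst_sub, Prod.snd_sub] at hp hw ⊢
    field_simp
    linear_combination hw - hp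
  rw [Ell, this]
  exact hp

theorem nsq_neg (p : V) : nsq (-p) = nsq p := by simp [nsq]

theorem tr_key (w : V) (h : w.2.2 ≠ 0) :
    2 * (tr w).2.2 = w.2.2 * (1 + (tr w).1 ^ 2 + (tr w).2.1 ^ 2) := by
  simp only [tr, nsq]
  field_simp
  ring

theorem tr_ne {w w' : V} (h : 0 < w.2.2 * w'.2.2) (hne : w ≠ w') :
    tr w ≠ tr w' ∧ tr w ≠ -tr w' := by
  have h1 : w.2.2 ≠ 0 := left_ne_zero_of_mul h.ne'
  have h2 : w'.2.2 ≠ 0 := right_ne_zero_of_mul h.ne'
  have k1 := tr_key w h1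
  have k2 := tr_key w' h2
  have hp : 0 < 1 + (tr w').1 ^ 2 + (tr w').2.1 ^ 2 := by positivity
  constructor
  · intro e
    rw [e, k2] at k1
    have e3 : w'.2.2 = w.2.2 := mul_right_cancel₀ hp.ne' k1
    have e1 := congrArg (fun t : V => t.1) e
    have e2 := congrArg (fun t : V => t.2.1) e
    simp only [tr, e3] at e1 e2
    rw [div_left_inj' h1, neg_inj] at e1 e2
    exact hne (Prod.ext e1 (Prod.ext e2 e3.symm))
  · intro e
    rw [e] at k1
    simp only [Prod.fst_neg, Prod.snd_neg, neg_sq] at k1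
    have e3 : w.2.2 = -w'.2.2 := mul_right_cancel₀ hp.ne' (by linarith)
    rw [e3] at h
    nlinarith [sq_nonneg w'.2.2]

open Classical in
noncomputable def SW (P : Finset V) (w : V) : Finset V := P.filter fun p => Ell (tr w) p.1 p.2.1

open Classical in
theorem rich_total {P : Finset V} (hP : Gen P) (W : Finset V) (hW : ∀ w ∈ W, w.2.2 ≠ 0) (n : ℕ)
    (hn : ∀ w ∈ W, n ≤ (SW P w).card) (hm : 8 * P.card ≤ n ^ 2) :
    ∑ w ∈ W, (SW P w).card ≤ 4 * P.card := by
  have key : ∀ T ⊆ W, (∀ w ∈ T, ∀ w' ∈ T, 0 < w.2.2 * w'.2.2) →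
      ∑ w ∈ T, (SW P w).card ≤ 2 * P.card := by
    intro T hT hs
    refine rich_sum P T (SW P) (fun _ _ => filter_subset _ _) (fun w hw w' hw' hne => ?_) n
      (fun w hw => hn w (hT hw)) hm
    obtain ⟨h1, h2⟩ := tr_ne (hs w hw w' hw') hne
    obtain ⟨Z, hZ, hz⟩ := ell_inter _ _ h1 h2
    refine le_trans (card_le_card_of_injOn (fun p => p.1) (fun p hp => ?_) fun p hp q hq => ?_) hZ
    · obtain ⟨a, b⟩ := mem_inter.mp hp
      exact hz _ _ (mem_filter.mp a).2 (mem_filter.mp b).2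
    · exact hP.inj p (mem_filter.mp (mem_inter.mp hp).1).1 q (mem_filter.mp (mem_inter.mp hq).1).1
  rw [← sum_filter_add_sum_filter_not W fun w => 0 < w.2.2]
  have a1 := key (W.filter fun w => 0 < w.2.2) (filter_subset _ _) fun w hw w' hw' =>
    mul_pos (mem_filter.mp hw).2 (mem_filter.mp hw').2
  have a2 := key (W.filter fun w => ¬ 0 < w.2.2) (filter_subset _ _) fun w hw w' hw' =>
    mul_pos_of_neg_of_neg
      (lt_of_le_of_ne (not_lt.mp (mem_filter.mp hw).2) (hW w (mem_filter.mp hw).1))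
      (lt_of_le_of_ne (not_lt.mp (mem_filter.mp hw').2) (hW w' (mem_filter.mp hw').1))
  omega

open Classical in
theorem split_sum {P : Finset V} (hP : Gen P) (W : Finset V) (hW : ∀ w ∈ W, w.2.2 ≠ 0) (n : ℕ)
    (hm : 8 * P.card ≤ n ^ 2) (A : V → Finset V) (hA : ∀ w, A w ⊆ P)
    (hA' : ∀ w ∈ W, A w ⊆ SW P w) (K : ℕ) (g : V → ℕ)
    (hg : ∀ w ∈ W, (SW P w).card ≤ n → (A w).card ^ 2 ≤ K * g w) :
    ∑ w ∈ insert 0 W, (A w).card ^ 2 ≤ 5 * P.card ^ 2 + K * ∑ w ∈ insert 0 W, g w := by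
  have h0 : (0 : V) ∉ W := fun h => hW 0 h rfl
  rw [sum_insert h0, sum_insert h0,
    ← sum_filter_add_sum_filter_not W fun w => (SW P w).card ≤ n]
  have a0 : (A 0).card ^ 2 ≤ P.card ^ 2 := Nat.pow_le_pow_left (card_le_card (hA 0)) 2
  have a1 : ∑ w ∈ W.filter fun w => (SW P w).card ≤ n, (A w).card ^ 2 ≤ K * ∑ w ∈ W, g w := by
    rw [mul_sum]
    exact (sum_le_sum fun w hw => hg w (mem_filter.mp hw).1 (mem_filter.mp hw).2).trans
      (sum_le_sum_of_subset (filter_subset _ _))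
  have a2 : ∑ w ∈ W.filter fun w => ¬ (SW P w).card ≤ n, (A w).card ^ 2
      ≤ P.card * (4 * P.card) := by
    refine le_trans ?_ (Nat.mul_le_mul_left _ (rich_total hP (W.filter fun w => ¬ (SW P w).card ≤ n)
      (fun w hw => hW w (mem_filter.mp hw).1) n
      (fun w hw => (not_le.mp (mem_filter.mp hw).2).le) hm))
    rw [mul_sum]
    refine sum_le_sum fun w hw => ?_
    rw [sq]
    exact Nat.mul_le_mul (card_le_card (hA w)) (card_le_card (hA' w (mem_filter.mp hw).1))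
  nlinarith [Nat.zero_le (K * g 0)]

open Classical in
theorem step {P : Finset V} (hP : Gen P) (n D L G : ℕ) (hn1 : 1 ≤ n) (hD : 1 ≤ D) (hL1 : 1 ≤ L)
    (hm : 8 * P.card ≤ n ^ 2) (hDn : P.card ≤ D ^ 2 * n)
    (hL : (4 * P.card ^ 2 + 2) ^ 2 * P.card ^ 2 < 2 ^ L) (hL' : 4 * P.card ^ 2 + 2 ≤ 2 ^ L)
    (hG : ∀ Q ⊆ P, Q.card ≤ n → En Q ≤ G) :
    En P ≤ 5 * P.card ^ 2 + 4 * (2 * (9000 * L * D) + 1) *
      (5 * P.card ^ 2 + 2 * (9000 * L * D + 1) * (D ^ 2 * G)) := by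
  set κ := 9000 * L * D with hκ
  let W : Finset V := (image₂ (· + ·) P P ∪ image₂ (· - ·) P P).erase 0
  have hW : ∀ w ∈ W, w.2.2 ≠ 0 := by
    intro w hw
    obtain ⟨h0, h1⟩ := mem_erase.mp hw
    rcases mem_union.mp h1 with h | h
    · obtain ⟨a, ha, b, hb, rfl⟩ := mem_image₂.mp h
      exact hP.add a ha b hb h0
    · obtain ⟨a, ha, b, hb, rfl⟩ := mem_image₂.mp h
      exact hP.sub a ha b hb h0
  have hWc : W.card ≤ 2 * P.card ^ 2 := by
    have a1 := card_image₂_le (· + ·) P P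
    have a2 := card_image₂_le (· - ·) P P
    have a3 := card_union_le (image₂ (· + ·) P P) (image₂ (· - ·) P P)
    have a4 : W.card ≤ _ := card_erase_le
    nlinarith
  have hadd : ∀ a ∈ P, ∀ b ∈ P, a + b ∈ insert 0 W := by
    intro a ha b hb
    by_cases h : a + b = 0
    · rw [h]; exact mem_insert_self _ _
    · exact mem_insert_of_mem (mem_erase.mpr ⟨h, mem_union_left _ (mem_image₂_of_mem ha hb)⟩)
  have hsub : ∀ a ∈ P, ∀ b ∈ P, a - b ∈ insert 0 W := by
    intro a ha b hb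
    by_cases h : a - b = 0
    · rw [h]; exact mem_insert_self _ _
    · exact mem_insert_of_mem (mem_erase.mpr ⟨h, mem_union_right _ (mem_image₂_of_mem ha hb)⟩)
  let A : Finset J := ((W.filter fun w => (SW P w).card ≤ n) ×ˢ (univ : Finset Bool)).image
    (fun z => Sum.inl (tr z.1, z.2)) ∪ {Sum.inr true, Sum.inr false}
  have hAc : A.card ≤ 4 * P.card ^ 2 + 2 := by
    refine (card_union_le _ _).trans (Nat.add_le_add (card_image_le.trans ?_) card_le_two)
    have := card_filter_le W fun w => (SW P w).card ≤ n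
    rw [card_product, card_univ, Fintype.card_bool]
    omega
  have hmemA : ∀ w ∈ W, (SW P w).card ≤ n → ∀ σ, (Sum.inl (tr w, σ) : J) ∈ A := fun w hw h σ =>
    mem_union_left _ (mem_image.mpr ⟨(w, σ), mem_product.mpr ⟨mem_filter.mpr ⟨hw, h⟩, mem_univ _⟩,
      rfl⟩)
  have hy : ∀ p ∈ P, -2 < p.2.1 ∧ p.2.1 < 2 := by
    intro p hp
    have := hP.sph p hp
    unfold nsq at this
    constructor <;> nlinarith [sq_nonneg p.1, sq_nonneg p.2.2]
  choose B hB1 hB2 using exists_chg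
  let S : Setup V J :=
    { P := P, x := fun p => p.1, y := fun p => p.2.1, A := A, f := fa, B := B
      top := Sum.inr true, bot := Sum.inr false, n := n
      inj := hP.inj
      hB := fun α _ β _ => hB1 α β
      chg := fun α _ β _ => hB2 α β
      htop := mem_union_right _ (by simp)
      hbot := mem_union_right _ (by simp)
      lt_top := fun p hp => by simpa [fa, dd, hj] using (hy p hp).2
      bot_lt := fun p hp => by simpa [fa, dd, hj] using (hy p hp).1
      npos := hn1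
      poor := by
        intro γ hγ T hT hT'
        rcases mem_union.mp hγ with h | h
        · obtain ⟨⟨w, σ⟩, hw, rfl⟩ := mem_image.mp h
          refine le_trans (card_le_card fun p hp => ?_) (mem_filter.mp (mem_product.mp hw).1).2
          exact mem_filter.mpr ⟨hT hp, ell_of_fa (hy p (hT hp)).2 (hT' p hp)⟩
        · have : T = ∅ := by
            rw [eq_empty_iff_forall_notMem]
            intro p hp
            have a1 := hT' p hp
            have a2 := hy p (hT hp)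
            simp only [mem_insert, mem_singleton] at h
            rcases h with rfl | rfl <;> simp [fa, dd, hj] at a1 <;> linarith [a2.1, a2.2]
          simp [this] }
  obtain ⟨π, χ, p1, p2, p3, p4, p5⟩ := S.partition L hL1 (by
      refine lt_of_le_of_lt ?_ hL
      simp only [Setup.cands, card_product, S]
      have := Nat.mul_le_mul hAc hAc
      calc A.card * (A.card * (P.card * P.card)) = (A.card * A.card) * P.card ^ 2 := by ring
        _ ≤ _ := by rw [sq (4 * _ + 2)]; exact Nat.mul_le_mul_right _ this)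
    (hAc.trans hL') D hD hDn
  simp only [S] at p1 p2 p4 p5
  have hσ : ∀ (w p : V), ∃ σ, Ell (tr w) p.1 p.2.1 → fa (.inl (tr w, σ)) p.1 = p.2.1 := by
    intro w p
    by_cases h : Ell (tr w) p.1 p.2.1
    · obtain ⟨σ, hσ⟩ := exists_arc h
      exact ⟨σ, fun _ => hσ⟩
    · exact ⟨true, fun h' => absurd h' h⟩
  choose σ hσ using hσ
  have s1 : En P ≤ 5 * P.card ^ 2 + 4 * (2 * κ + 1) *
      cnt P (fun q => π q.1 = π q.2.2.1 ∧ π q.2.1 = π q.2.2.2) := by
    rw [En_eq_sum P _ hadd, cnt_sum P _ _ hadd]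
    have hell : ∀ s ∈ W, ∀ a ∈ P, s - a ∈ P →
        Ell (tr s) a.1 a.2.1 ∧ Ell (tr s) (s - a).1 (s - a).2.1 := fun s hs a ha hb =>
      ⟨on_ell (hP.sph a ha) (hP.sph _ hb) (hW s hs),
        on_ell (hP.sph _ hb) (by rw [sub_sub_cancel]; exact hP.sph a ha) (hW s hs)⟩
    refine split_sum hP W hW n hm _ (fun _ => filter_subset _ _) (fun s hs a ha =>
      mem_filter.mpr ⟨(mem_filter.mp ha).1,
        (hell s hs a (mem_filter.mp ha).1 (mem_filter.mp ha).2).1⟩) _ _ fun s hs hsn => ?_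
    refine (sq_le_colors _ (fun a => (σ s a, σ s (s - a),
      χ (.inl (tr s, σ s a)) a.1 + (κ - χ (.inl (tr s, σ s (s - a))) (s - a).1)))
      (univ ×ˢ univ ×ˢ range (2 * κ + 1)) (fun a _ => ?_)).trans ?_
    · have := p4 _ (hmemA s hs hsn (σ s a)) a.1
      simp only [mem_product, mem_univ, mem_range, true_and]
      omega
    · refine Nat.mul_le_mul (by simp [card_product]; omega) (card_le_card ?_)
      rintro ⟨a, c⟩ hz
      obtain ⟨hz1, hz2⟩ := mem_filter.mp hz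
      refine mem_filter.mpr ⟨hz1, ?_⟩
      simp only [mem_product, mem_filter] at hz1
      obtain ⟨⟨ha, ha'⟩, hc, hc'⟩ := hz1
      simp only [Prod.mk.injEq] at hz2
      obtain ⟨e1, e2, e3⟩ := hz2
      rw [← e1, ← e2] at e3
      have b1 := p4 _ (hmemA s hs hsn (σ s (s - a))) (s - a).1
      have b2 := p4 _ (hmemA s hs hsn (σ s (s - a))) (s - c).1
      have e4 : χ (.inl (tr s, σ s a)) a.1 = χ (.inl (tr s, σ s a)) c.1 ∧
          χ (.inl (tr s, σ s (s - a))) (s - a).1 = χ (.inl (tr s, σ s (s - a))) (s - c).1 := by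
        rcases le_total a.1 c.1 with h | h
        · have c1 := p3 (.inl (tr s, σ s a)) h
          have c2 := p3 (.inl (tr s, σ s (s - a)))
            (show (s - c).1 ≤ (s - a).1 by simp only [Prod.fst_sub]; linarith)
          omega
        · have c1 := p3 (.inl (tr s, σ s a)) h
          have c2 := p3 (.inl (tr s, σ s (s - a)))
            (show (s - a).1 ≤ (s - c).1 by simp only [Prod.fst_sub]; linarith)
          omega
      exact ⟨p5 _ (hmemA s hs hsn (σ s a)) a ha c hc (hσ s a (hell s hs a ha ha').1)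
          (e1 ▸ hσ s c (hell s hs c hc hc').1) e4.1,
        p5 _ (hmemA s hs hsn (σ s (s - a))) _ ha' _ hc' (hσ s _ (hell s hs a ha ha').2)
          (e2 ▸ hσ s _ (hell s hs c hc hc').2) e4.2⟩
  have s2 : cnt P (fun q => π q.1 = π q.2.2.1 ∧ π q.2.1 = π q.2.2.2) ≤ 5 * P.card ^ 2 +
      2 * (κ + 1) *
        cnt P (fun q => π q.1 = π q.2.2.1 ∧ π q.2.1 = π q.2.2.2 ∧ π q.1 = π q.2.2.2) := by
    rw [cnt_diff P _ _ hsub, cnt_diff P _ _ hsub]
    have hell : ∀ v ∈ W, ∀ a ∈ P, a - v ∈ P → Ell (tr v) a.1 a.2.1 := fun v hv a ha hb =>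
      on_ell (hP.sph a ha) (by rw [← nsq_neg, neg_sub]; exact hP.sph _ hb) (hW v hv)
    refine le_trans (sum_le_sum fun v _ => ?_) (split_sum hP W hW n hm
      (fun v => P.filter fun a => a - v ∈ P ∧ π a = π (a - v)) (fun _ => filter_subset _ _)
      (fun v hv a ha => mem_filter.mpr ⟨(mem_filter.mp ha).1,
        hell v hv a (mem_filter.mp ha).1 (mem_filter.mp ha).2.1⟩) _ _ fun v hv hvn => ?_)
    · rw [sq, ← card_product]
      refine card_le_card ?_
      rintro ⟨a, d⟩ hz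
      simp only [mem_filter, mem_product] at hz ⊢
      obtain ⟨⟨⟨ha, ha'⟩, hd, hd'⟩, e1, e2⟩ := hz
      exact ⟨⟨ha, ha', e1⟩, hd, hd', e2.symm⟩
    · refine (sq_le_colors _ (fun a => (σ v a, χ (.inl (tr v, σ v a)) a.1))
        (univ ×ˢ range (κ + 1)) (fun a _ => ?_)).trans ?_
      · have := p4 _ (hmemA v hv hvn (σ v a)) a.1
        simp only [mem_product, mem_univ, mem_range, true_and]
        omega
      · refine Nat.mul_le_mul (by simp [card_product]) (card_le_card ?_)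
        rintro ⟨a, d⟩ hz
        simp only [mem_filter, mem_product, Prod.mk.injEq] at hz ⊢
        obtain ⟨⟨⟨ha, ha', f1⟩, hd, hd', f2⟩, e1, e2⟩ := hz
        rw [← e1] at e2
        exact ⟨⟨⟨ha, ha'⟩, hd, hd'⟩, f1, f2.symm,
          p5 _ (hmemA v hv hvn (σ v a)) a ha d hd (hσ v a (hell v hv a ha ha'))
            (e1 ▸ hσ v d (hell v hv d hd hd')) e2⟩
  have s3 : cnt P (fun q => π q.1 = π q.2.2.1 ∧ π q.2.1 = π q.2.2.2 ∧ π q.1 = π q.2.2.2)
      ≤ D ^ 2 * G := by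
    refine (cnt_parts P π _ p1).trans ?_
    have := sum_le_card_nsmul (range (D ^ 2)) (fun j => En (P.filter fun p => π p = j)) G
      fun j _ => hG _ (filter_subset _ _) (p2 j)
    simpa using this
  exact s1.trans (Nat.add_le_add_left (Nat.mul_le_mul_left _
    (s2.trans (Nat.add_le_add_left (Nat.mul_le_mul_left _ s3) _))) _)

end Pool.Agent.Lib.MP_b2463a_co
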