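import Mathlib
import Pool.Agent.Lib.MP_b2463a_co.Energy

namespace Pool.Agent.Lib.MP_b2463a_co

open Finset

open Classical in
theorem recur (M L D : ℕ) (hL1 : 1 ≤ L) (hL : (4 * M ^ 2 + 2) ^ 2 * M ^ 2 < 2 ^ L) (hD : 2 ≤ D)
    (j : ℕ) : ∀ P : Finset V, Gen P → P.card ≤ M → P.card ≤ 8 * D ^ (4 + j) →
      En P ≤ 8 * D ^ 4 * (2 ^ 34 * L ^ 2) ^ j * P.card ^ 2 := by
  have triv : ∀ (j : ℕ) (P : Finset V), P.card ≤ 8 * D ^ 4 →
      En P ≤ 8 * D ^ 4 * (2 ^ 34 * L ^ 2) ^ j * P.card ^ 2 := by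
    intro j P h
    refine (En_le_cube P).trans ?_
    rw [pow_succ']
    refine Nat.mul_le_mul_right _ (h.trans (Nat.le_mul_of_pos_right _ (by positivity)))
  induction j with
  | zero => intro P _ _ h; exact triv 0 P h
  | succ j ih =>
    intro P hP hM h
    by_cases hs : P.card ≤ 8 * D ^ 4
    · exact triv _ P hs
    push Not at hs
    set m := P.card with hm
    have hD2 : 0 < D ^ 2 := by positivity
    have hD4 : D ^ 2 ≤ D ^ 4 := Nat.pow_le_pow_right (by omega) (by norm_num)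
    obtain ⟨n, n1⟩ : ∃ n, m ≤ D ^ 2 * n ∧ D ^ 2 * n ≤ 2 * m := by
      refine ⟨(m + D ^ 2) / D ^ 2, ?_⟩
      have a1 := Nat.div_add_mod (m + D ^ 2) (D ^ 2)
      have a2 := Nat.mod_lt (m + D ^ 2) hD2
      generalize D ^ 2 * ((m + D ^ 2) / D ^ 2) = u at a1 ⊢
      generalize (m + D ^ 2) % D ^ 2 = v at a1 a2
      omega
    have n2 : 1 ≤ n := by
      rcases Nat.eq_zero_or_pos n with h0 | h0
      · rw [h0] at n1
        omega
      · exact h0
    have n3 : 8 * m ≤ n ^ 2 := by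
      have a1 : m * m ≤ (D ^ 2 * n) * (D ^ 2 * n) := Nat.mul_le_mul n1.1 n1.1
      have a2 : 8 * D ^ 4 * m ≤ m * m := Nat.mul_le_mul_right _ hs.le
      have a3 : D ^ 4 * (8 * m) ≤ D ^ 4 * n ^ 2 := by
        calc D ^ 4 * (8 * m) = 8 * D ^ 4 * m := by ring
          _ ≤ _ := a2.trans a1
          _ = _ := by ring
      exact Nat.le_of_mul_le_mul_left a3 (by positivity)
    have n4 : n ≤ 8 * D ^ (4 + j) := by
      have a1 : D * (D * n) ≤ D * m := by
        calc D * (D * n) = D ^ 2 * n := by ring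
          _ ≤ 2 * m := n1.2
          _ ≤ D * m := Nat.mul_le_mul_right _ hD
      have a2 : D * n ≤ m := Nat.le_of_mul_le_mul_left a1 (by omega)
      have a3 : D * n ≤ D * (8 * D ^ (4 + j)) := by
        refine (a2.trans h).trans (le_of_eq ?_)
        ring
      exact Nat.le_of_mul_le_mul_left a3 (by omega)
    have b1 : (4 * m ^ 2 + 2) ^ 2 * m ^ 2 ≤ (4 * M ^ 2 + 2) ^ 2 * M ^ 2 := by gcongr
    have b2 : 4 * m ^ 2 + 2 ≤ (4 * m ^ 2 + 2) ^ 2 * m ^ 2 := by
      have : 1 ≤ m ^ 2 := Nat.one_le_pow _ _ (by omega)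
      calc 4 * m ^ 2 + 2 ≤ (4 * m ^ 2 + 2) ^ 2 := Nat.le_self_pow (by norm_num) _
        _ ≤ _ := Nat.le_mul_of_pos_right _ this
    set G := 8 * D ^ 4 * (2 ^ 34 * L ^ 2) ^ j with hG
    have hst := step hP n D L (G * n ^ 2) n2 (by omega) hL1 n3 n1.1 (b1.trans_lt hL)
      (b2.trans (b1.trans hL.le)) fun Q hQ hQn =>
        (ih Q (hP.mono hQ) ((card_le_card hQ).trans hM) (hQn.trans n4)).trans
          (Nat.mul_le_mul_left _ (Nat.pow_le_pow_left hQn 2))
    rw [← hm] at hst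
    have e : 8 * D ^ 4 * (2 ^ 34 * L ^ 2) ^ (j + 1) * m ^ 2 = 2 ^ 34 * (L ^ 2 * G * m ^ 2) := by
      rw [hG]; ring
    rw [e]
    set κ := 9000 * L * D with hκ
    have k1 : 1 ≤ κ := by rw [hκ]; exact Nat.mul_pos (by omega) (by omega)
    have k2 : κ ≤ 9000 * (L ^ 2 * G) := by
      have a1 : D ≤ G := by
        calc D ≤ D ^ 4 := Nat.le_self_pow (by norm_num) _
          _ ≤ 8 * D ^ 4 := by omega
          _ ≤ G := Nat.le_mul_of_pos_right _ (by positivity)
      have a2 : L ≤ L ^ 2 := Nat.le_self_pow (by norm_num) _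
      rw [hκ, mul_assoc]
      exact Nat.mul_le_mul_left _ (Nat.mul_le_mul a2 a1)
    have k3 : κ * κ * (D ^ 2 * (G * n ^ 2)) ≤ 324000000 * (L ^ 2 * G * m ^ 2) := by
      calc κ * κ * (D ^ 2 * (G * n ^ 2)) = 81000000 * (L ^ 2 * G) * (D ^ 2 * n) ^ 2 := by
            rw [hκ]; ring
        _ ≤ 81000000 * (L ^ 2 * G) * (2 * m) ^ 2 :=
            Nat.mul_le_mul_left _ (Nat.pow_le_pow_left n1.2 2)
        _ = _ := by ring
    have k4 : κ * m ^ 2 ≤ 9000 * (L ^ 2 * G * m ^ 2) := by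
      calc κ * m ^ 2 ≤ 9000 * (L ^ 2 * G) * m ^ 2 := Nat.mul_le_mul_right _ k2
        _ = _ := by ring
    have k5 : m ^ 2 ≤ κ * m ^ 2 := Nat.le_mul_of_pos_left _ k1
    calc En P ≤ 5 * m ^ 2 + 4 * (3 * κ) * (5 * m ^ 2 + 2 * (2 * κ) * (D ^ 2 * (G * n ^ 2))) := by
          refine hst.trans ?_
          gcongr <;> omega
      _ = 5 * m ^ 2 + 60 * (κ * m ^ 2) + 48 * (κ * κ * (D ^ 2 * (G * n ^ 2))) := by ring
      _ ≤ _ := by omega

open Classical in
theorem gen_bound (P : Finset V) (hP : Gen P) :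
    (En P : ℝ) ≤ 128 * (P.card : ℝ) ^ 2 *
      Real.exp (128 * √(Real.log P.card * Real.log (Real.log P.card))) := by
  set m := P.card with hm
  set h := √(Real.log m * Real.log (Real.log m)) with hh
  have h0 : 0 ≤ h := Real.sqrt_nonneg _
  by_cases hs : m ≤ 128
  · have a1 : (En P : ℝ) ≤ (m : ℝ) ^ 3 := by exact_mod_cast En_le_cube P
    have a2 : (m : ℝ) ≤ 128 := by exact_mod_cast hs
    have a3 : 1 ≤ Real.exp (128 * h) := Real.one_le_exp (by positivity)
    calc (En P : ℝ) ≤ m * (m : ℝ) ^ 2 * 1 := by linarith [pow_succ' (m : ℝ) 2]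
      _ ≤ _ := by gcongr
  push Not at hs
  have m1 : (128 : ℝ) < m := by exact_mod_cast hs
  set l := Real.log m with hl
  have l1 : 3 ≤ l := by
    rw [hl, Real.le_log_iff_exp_le (by linarith)]
    have := Real.exp_one_lt_d9
    calc Real.exp 3 = Real.exp 1 ^ 3 := by rw [← Real.exp_nat_mul]; norm_num
      _ ≤ 3 ^ 3 := pow_le_pow_left₀ (Real.exp_pos _).le (by linarith) 3
      _ ≤ m := by linarith
  have l2 : 1 ≤ Real.log l := by
    rw [Real.le_log_iff_exp_le (by linarith)]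
    have := Real.exp_one_lt_d9
    linarith
  have l3 : Real.log l ≤ l := (Real.log_le_sub_one_of_pos (by linarith)).trans (by linarith)
  have hsq : h ^ 2 = l * Real.log l := Real.sq_sqrt (by positivity)
  have h1 : 1 ≤ h := by
    rw [hh]
    exact Real.one_le_sqrt.mpr (by nlinarith)
  have h2 : h ≤ l := by
    rw [hh, Real.sqrt_le_left (by linarith)]
    nlinarith
  set L := Nat.log 2 ((4 * m ^ 2 + 2) ^ 2 * m ^ 2) + 1 with hL
  have L1 : (4 * m ^ 2 + 2) ^ 2 * m ^ 2 < 2 ^ L := Nat.lt_pow_succ_log_self (by norm_num) _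
  have L2 : (L : ℝ) ≤ 16 * l := by
    have a1 : 2 ^ Nat.log 2 ((4 * m ^ 2 + 2) ^ 2 * m ^ 2) ≤ m ^ 7 := by
      refine (Nat.pow_log_le_self 2 (by positivity)).trans ?_
      have b1 : 1 ≤ m ^ 2 := Nat.one_le_pow _ _ (by omega)
      calc (4 * m ^ 2 + 2) ^ 2 * m ^ 2 ≤ (6 * m ^ 2) ^ 2 * m ^ 2 := by gcongr; omega
        _ = 36 * m ^ 6 := by ring
        _ ≤ m * m ^ 6 := Nat.mul_le_mul_right _ (by omega)
        _ = m ^ 7 := by ring
    have a2 : ((2 : ℝ)) ^ Nat.log 2 ((4 * m ^ 2 + 2) ^ 2 * m ^ 2) ≤ (m : ℝ) ^ 7 := by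
      exact_mod_cast a1
    have a3 := Real.log_le_log (by positivity) a2
    rw [Real.log_pow, Real.log_pow, ← hl] at a3
    have a4 := Real.log_two_gt_d9
    have a5 : (0 : ℝ) ≤ Nat.log 2 ((4 * m ^ 2 + 2) ^ 2 * m ^ 2) := Nat.cast_nonneg _
    rw [hL]
    push_cast at a3 ⊢
    nlinarith
  have L3 : (1 : ℝ) ≤ L := by rw [hL]; push_cast; linarith [Nat.cast_nonneg (α := ℝ) (Nat.log 2 ((4 * m ^ 2 + 2) ^ 2 * m ^ 2))]
  set D := ⌈Real.exp h⌉₊ with hD
  have D1 : Real.exp h ≤ D := Nat.le_ceil _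
  have e2 : 2 ≤ Real.exp h := by linarith [Real.add_one_le_exp h]
  have D2 : (D : ℝ) ≤ 2 * Real.exp h := by
    have := Nat.ceil_lt_add_one (Real.exp_pos h).le
    linarith
  have D3 : 2 ≤ D := by
    have : (2 : ℝ) ≤ D := by linarith
    exact_mod_cast this
  set j := ⌈l / h⌉₊ with hj
  have j1 : l / h ≤ j := Nat.le_ceil _
  have j2 : (j : ℝ) * h ≤ 2 * l := by
    have := Nat.ceil_lt_add_one (show 0 ≤ l / h by positivity)
    have a : (j : ℝ) * h ≤ (l / h + 1) * h := mul_le_mul_of_nonneg_right this.le h0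
    rw [add_mul, div_mul_cancel₀ _ (by linarith)] at a
    linarith
  have hmD : m ≤ 8 * D ^ (4 + j) := by
    have a1 : (m : ℝ) ≤ (D : ℝ) ^ j := by
      calc (m : ℝ) = Real.exp l := (Real.exp_log (by linarith)).symm
        _ ≤ Real.exp (j * h) := Real.exp_le_exp.mpr (by rwa [div_le_iff₀ (by linarith)] at j1)
        _ = Real.exp h ^ j := Real.exp_nat_mul h j
        _ ≤ _ := pow_le_pow_left₀ (Real.exp_pos _).le D1 j
    have a2 : m ≤ D ^ j := by exact_mod_cast a1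
    have a3 : D ^ j ≤ D ^ (4 + j) := Nat.pow_le_pow_right (by omega) (by omega)
    omega
  have key := recur m L D (by omega) L1 D3 j P hP le_rfl hmD
  have key' : (En P : ℝ) ≤ 8 * (D : ℝ) ^ 4 * (2 ^ 34 * (L : ℝ) ^ 2) ^ j * (m : ℝ) ^ 2 := by
    exact_mod_cast key
  have c1 : (2 : ℝ) ^ 34 * (L : ℝ) ^ 2 ≤ Real.exp (44 * Real.log l) := by
    have a1 : (2 : ℝ) ≤ l := by linarith
    calc (2 : ℝ) ^ 34 * (L : ℝ) ^ 2 ≤ 2 ^ 34 * (16 * l) ^ 2 := by gcongr
      _ = 2 ^ 42 * l ^ 2 := by ring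
      _ ≤ l ^ 42 * l ^ 2 := by gcongr
      _ = Real.exp (Real.log l) ^ 44 := by rw [Real.exp_log (by linarith)]; ring
      _ = _ := by rw [← Real.exp_nat_mul]; norm_num
  have c2 : ((2 : ℝ) ^ 34 * (L : ℝ) ^ 2) ^ j ≤ Real.exp (88 * h) := by
    refine (pow_le_pow_left₀ (by positivity) c1 j).trans ?_
    rw [← Real.exp_nat_mul, Real.exp_le_exp]
    have : (j : ℝ) * Real.log l * h ≤ 2 * h * h := by nlinarith
    have := le_of_mul_le_mul_right this (by linarith)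
    linarith
  have c3 : (D : ℝ) ^ 4 ≤ 16 * Real.exp (4 * h) := by
    calc (D : ℝ) ^ 4 ≤ (2 * Real.exp h) ^ 4 := by gcongr
      _ = 16 * Real.exp h ^ 4 := by ring
      _ = _ := by rw [← Real.exp_nat_mul]; norm_num
  calc (En P : ℝ) ≤ 8 * (16 * Real.exp (4 * h)) * Real.exp (88 * h) * (m : ℝ) ^ 2 := by
        refine key'.trans ?_
        gcongr
    _ = 128 * (m : ℝ) ^ 2 * Real.exp (92 * h) := by
        rw [show 92 * h = 4 * h + 88 * h by ring, Real.exp_add]; ring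
    _ ≤ _ := by gcongr; norm_num

theorem avoid (N : Finset (ℝ × ℝ)) : ∃ c s : ℝ, c ^ 2 + s ^ 2 = 1 ∧
    ∀ z ∈ N, z ≠ 0 → c * z.1 + s * z.2 ≠ 0 ∧ -s * z.1 + c * z.2 ≠ 0 := by
  classical
  obtain ⟨t, ht⟩ := Infinite.exists_notMem_finset
    (N.image (fun z => -z.1 / z.2) ∪ N.image fun z => z.2 / z.1)
  have hp : 0 < √(1 + t ^ 2) := Real.sqrt_pos.mpr (by positivity)
  refine ⟨1 / √(1 + t ^ 2), t / √(1 + t ^ 2), ?_, fun z hz h0 => ⟨fun h => ?_, fun h => ?_⟩⟩
  · rw [div_pow, div_pow, Real.sq_sqrt (by positivity)]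
    field_simp
  · have h' : z.1 + t * z.2 = 0 := by
      field_simp at h
      linarith
    by_cases h2 : z.2 = 0
    · exact h0 (Prod.ext (by simpa [h2] using h') h2)
    · refine ht (mem_union_left _ (mem_image.mpr ⟨z, hz, ?_⟩))
      field_simp
      linarith
  · have h' : -t * z.1 + z.2 = 0 := by
      field_simp at h
      linarith
    by_cases h2 : z.1 = 0
    · exact h0 (Prod.ext h2 (by simpa [h2] using h'))
    · refine ht (mem_union_right _ (mem_image.mpr ⟨z, hz, ?_⟩))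
      field_simp
      linarith

theorem exists_rot (N : Finset V) : ∃ T : V →+ V, (∀ p, nsq (T p) = nsq p) ∧
    ∀ z ∈ N, z ≠ 0 → (T z).1 ≠ 0 ∧ (T z).2.2 ≠ 0 := by
  classical
  obtain ⟨c, s, h1, h2⟩ := avoid (N.image fun z => (z.1, z.2.1))
  obtain ⟨c', s', h1', h2'⟩ := avoid (N.image fun z => (c * z.1 + s * z.2.1, z.2.2))
  refine ⟨{ toFun := fun z => (c' * (c * z.1 + s * z.2.1) + s' * z.2.2, -s * z.1 + c * z.2.1,
              -s' * (c * z.1 + s * z.2.1) + c' * z.2.2)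
            map_zero' := by simp
            map_add' := fun a b => by
              simp only [Prod.fst_add, Prod.snd_add, Prod.mk_add_mk, Prod.mk.injEq]
              refine ⟨by ring, by ring, by ring⟩ }, fun p => ?_, fun z hz h0 => ?_⟩
  · simp only [nsq, AddMonoidHom.coe_mk, ZeroHom.coe_mk]
    linear_combination ((c * p.1 + s * p.2.1) ^ 2 + p.2.2 ^ 2) * h1' + (p.1 ^ 2 + p.2.1 ^ 2) * h1
  · refine h2' _ (mem_image_of_mem _ hz) fun h => ?_
    simp only [Prod.mk_eq_zero] at h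
    by_cases h3 : (z.1, z.2.1) = 0
    · simp only [Prod.mk_eq_zero] at h3
      exact h0 (Prod.ext h3.1 (Prod.ext h3.2 h.2))
    · exact (h2 _ (mem_image_of_mem _ hz) h3).1 h.1

theorem En_le_image {X Y : Type*} [DecidableEq X] [DecidableEq Y] [AddCommGroup X]
    [AddCommGroup Y] (T : X →+ Y) (hT : Function.Injective T) (P : Finset X) :
    En P ≤ En (P.image T) := by
  apply card_le_card_of_injOn (fun q => (T q.1, T q.2.1, T q.2.2.1, T q.2.2.2))
  · rintro ⟨a, b, c, d⟩ hq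
    simp only [coe_filter, mem_product, Set.mem_ofPred_eq] at hq ⊢
    obtain ⟨⟨ha, hb, hc, hd⟩, h⟩ := hq
    exact ⟨⟨mem_image_of_mem _ ha, mem_image_of_mem _ hb, mem_image_of_mem _ hc,
      mem_image_of_mem _ hd⟩, by rw [← map_add, ← map_add, h]⟩
  · rintro ⟨a, b, c, d⟩ _ ⟨a', b', c', d'⟩ _ h
    simp only [Prod.mk.injEq] at h ⊢
    exact ⟨hT h.1, hT h.2.1, hT h.2.2.1, hT h.2.2.2⟩

open Classical in
theorem main (R : ℝ) (hR : 0 < R) (P : Finset (EuclideanSpace ℝ (Fin 3))) (hP : ∀ p ∈ P, ‖p‖ = R) :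
    (En P : ℝ) ≤ 128 * (P.card : ℝ) ^ 2 *
      Real.exp (128 * √(Real.log P.card * Real.log (Real.log P.card))) := by
  let T0 : EuclideanSpace ℝ (Fin 3) →+ V :=
    { toFun := fun p => (p 0 / R, p 1 / R, p 2 / R)
      map_zero' := by simp
      map_add' := fun a b => by simp [add_div] }
  have h0 : ∀ p, nsq (T0 p) = ‖p‖ ^ 2 / R ^ 2 := by
    intro p
    rw [EuclideanSpace.real_norm_sq_eq, Fin.sum_univ_three]
    simp only [T0, nsq, AddMonoidHom.coe_mk, ZeroHom.coe_mk]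
    ring
  obtain ⟨T1, h1, h2⟩ := exists_rot ((image₂ (· + ·) P P ∪ image₂ (· - ·) P P).image T0)
  let T := T1.comp T0
  have hT : Function.Injective T := by
    rw [injective_iff_map_eq_zero]
    intro p hp
    have : nsq (T p) = ‖p‖ ^ 2 / R ^ 2 := (h1 _).trans (h0 p)
    rw [hp] at this
    have h3 : ‖p‖ ^ 2 = 0 := by
      simp only [nsq, Prod.fst_zero, Prod.snd_zero] at this
      field_simp at this
      linarith
    simpa using h3
  have hne : ∀ z, T z ≠ 0 → T0 z ≠ 0 := fun z hz h => hz (by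
    show T1 (T0 z) = 0
    rw [h, map_zero])
  have hgen : Gen (P.image T) := by
    refine ⟨?_, ?_, ?_, ?_⟩
    · intro q hq
      obtain ⟨p, hp, rfl⟩ := mem_image.mp hq
      refine ((h1 _).trans (h0 p)).trans ?_
      rw [hP p hp]
      field_simp
    · intro q hq q' hq' h
      obtain ⟨p, hp, rfl⟩ := mem_image.mp hq
      obtain ⟨p', hp', rfl⟩ := mem_image.mp hq'
      by_contra hcon
      have a1 : T (p - p') ≠ 0 := by rw [map_sub]; exact sub_ne_zero.mpr hcon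
      refine (h2 _ (mem_image_of_mem _ (mem_union_right _ (mem_image₂_of_mem hp hp')))
        (hne _ a1)).1 ?_
      show (T (p - p')).1 = 0
      rw [map_sub, Prod.fst_sub, h, sub_self]
    · intro q hq q' hq' h
      obtain ⟨p, hp, rfl⟩ := mem_image.mp hq
      obtain ⟨p', hp', rfl⟩ := mem_image.mp hq'
      rw [← map_add] at h ⊢
      exact (h2 _ (mem_image_of_mem _ (mem_union_left _ (mem_image₂_of_mem hp hp')))
        (hne _ h)).2
    · intro q hq q' hq' h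
      obtain ⟨p, hp, rfl⟩ := mem_image.mp hq
      obtain ⟨p', hp', rfl⟩ := mem_image.mp hq'
      rw [← map_sub] at h ⊢
      exact (h2 _ (mem_image_of_mem _ (mem_union_right _ (mem_image₂_of_mem hp hp')))
        (hne _ h)).2
  have a1 := gen_bound _ hgen
  rw [card_image_of_injective _ hT] at a1
  have a2 : (En P : ℝ) ≤ En (P.image T) := by exact_mod_cast En_le_image T hT P
  exact a2.trans a1

end Pool.Agent.Lib.MP_b2463a_co
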